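import Pool.Agent.Work.MP_dcf6a6_tv.Defs

/-!
# Multigraded version (varieties with split Cox ring) of the theorem on MP_dcf6a6_ag
-/

open CategoryTheory AlgebraicGeometry

namespace Pool.TVar

noncomputable section

/-- The combinatorial data of a split Cox ring graded by the group `H`: variables `T_j` (`j : J`)
distributed over the blocks `ja j : I`, variables `S_k` (`k : K`), polynomials `P_b` in the `S_k`
(`b : B`) distributed over the blocks `ba b : I`, exponents `m b`; degrees `deg` of the variables and
`p b` of `P_b` in `H`. -/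
structure CoxData (J K I B H : Type) [Fintype J] [Fintype K] [Fintype B]
    [DecidableEq J] [DecidableEq K] [DecidableEq I] [AddCommGroup H] where
  /-- the block of `T_j` -/
  ja : J → I
  /-- the block of `P_b` -/
  ba : B → I
  /-- the degrees of the variables -/
  deg : J ⊕ K → H
  /-- the exponent of `P_b` -/
  m : B → ℕ
  /-- the degree of `P_b` -/
  p : B → H
  /-- the polynomials `P_b` in the variables `S_k` -/
  P : B → MvPolynomial K ℂ
  /-- there is at least one variable -/
  nonempty : Nonempty (J ⊕ K)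
  ja_surj : Function.Surjective ja
  m_pos : ∀ b, 0 < m b
  p_ne : ∀ b, p b ≠ 0
  homog : ∀ b, (P b).IsWeightedHomogeneous (fun k => deg (Sum.inr k)) (p b)
  balanced : ∀ a, ∑ j with ja j = a, deg (Sum.inl j) = ∑ b with ba b = a, m b • p b
  squarefree : Squarefree ((∏ b, P b) * ∏ k, MvPolynomial.X k)
  /-- all degrees lie in an open half space -/
  pointed : ∃ d : H →+ ℤ, ∀ v, 0 < d (deg v)
  /-- any all but one of the degrees generate the grading group -/
  generated : ∀ v, AddSubgroup.closure (deg '' {v}ᶜ) = ⊤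

variable {J K I B H : Type} [Fintype J] [Fintype K] [Fintype B]
    [DecidableEq J] [DecidableEq K] [DecidableEq I] [AddCommGroup H]

/-- The relation of block `a`: `∏_{ja j = a} T_j - ∏_{ba b = a} P_b(S) ^ m_b`. -/
def CoxData.rel (D : CoxData J K I B H) (a : I) : MvPolynomial (J ⊕ K) ℂ :=
  ∏ j with D.ja j = a, MvPolynomial.X (Sum.inl j) -
    ∏ b with D.ba b = a, (MvPolynomial.rename Sum.inr (D.P b)) ^ D.m b

/-- `ℛ` is an `H`-grading of the `ℂ`-algebra `R`, presented as
`ℂ[T_j, S_k] / (∏_{ja j = a} T_j = ∏_{ba b = a} P_b(S) ^ m_b)` with the variable `v` in degree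
`deg v`. -/
structure CoxData.Pres [DecidableEq H] (D : CoxData J K I B H) (R : Type) [CommRing R]
    [Algebra ℂ R] (ℛ : H → Submodule ℂ R) [GradedAlgebra ℛ] where
  /-- the presentation map -/
  π : MvPolynomial (J ⊕ K) ℂ →ₐ[ℂ] R
  surj : Function.Surjective π
  graded : ∀ v, π (MvPolynomial.X v) ∈ ℛ (D.deg v)
  ker : RingHom.ker π = Ideal.span (Set.range D.rel)

/-- `L` lies in the relative interior of the moving cone: for every variable `v` some positive
multiple of `L` is a combination of the degrees of all the other variables with positive integral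
coefficients. -/
def CoxData.MovingInterior (D : CoxData J K I B H) (L : H) : Prop :=
  ∀ v, ∃ n : ℕ, 0 < n ∧ ∃ e : J ⊕ K → ℕ, e v = 0 ∧ (∀ v', v' ≠ v → 0 < e v') ∧
    ∑ v', e v' • D.deg v' = n • L

/-- `(A, 𝒜)` is the section ring `⨁_n R_{n L}`, embedded in `R` by `ι`. -/
structure SectionRing [DecidableEq H] {R : Type} [CommRing R] [Algebra ℂ R]
    (ℛ : H → Submodule ℂ R) [GradedAlgebra ℛ] (L : H) (A : Type) [CommRing A] [Algebra ℂ A]
    (𝒜 : ℕ → Submodule ℂ A) [GradedAlgebra 𝒜] where
  /-- the embedding -/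
  ι : A →ₐ[ℂ] R
  inj : Function.Injective ι
  graded : ∀ n, (𝒜 n).map ι.toLinearMap = ℛ (n • L)

end

end Pool.TVar
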