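import Pool.Agent.Work.MP_dcf6a6_mg.Ext

/-!
# Descent of formal smoothness from `R_h` to its part of degree zero
-/

open CategoryTheory AlgebraicGeometry

namespace Pool.TVar.MG

noncomputable section

theorem descent_aux {T S : Type} [CommRing T] [Algebra ℂ T] [CommRing S] [Algebra ℂ S]
    (κ : T →ₐ[ℂ] S) (hS : Algebra.FormallySmooth ℂ S)
    {Q : Type} [CommRing Q] [Algebra ℂ Q] (𝔞 : Ideal Q) (h𝔞 : 𝔞 ^ 2 = ⊥)
    (f : T →ₐ[ℂ] Q ⧸ 𝔞) {B : Type} [CommRing B] [Algebra Q B] (p : B →+ Q)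
    (hp : ∀ q b, p (algebraMap Q B q * b) = q * p b) (hp1 : p 1 = 1)
    (𝔟 : Ideal B) (h𝔟 : 𝔟 = 𝔞.map (algebraMap Q B)) (G : S →+* B ⧸ 𝔟)
    (hG : ∀ t q, Ideal.Quotient.mk 𝔞 q = f t →
          G (κ t) = Ideal.Quotient.mk 𝔟 (algebraMap Q B q)) :
    ∃ g : T →ₐ[ℂ] Q, (Ideal.Quotient.mkₐ ℂ 𝔞).comp g = f := by
  have h𝔟2 : 𝔟 ^ 2 = ⊥ := by
    rw [h𝔟, ← Ideal.map_pow, h𝔞, Ideal.map_bot]
  let _ : Algebra ℂ B := ((algebraMap Q B).comp (algebraMap ℂ Q)).toAlgebra
  have halg : ∀ c : ℂ, algebraMap ℂ B c = algebraMap Q B (algebraMap ℂ Q c) := fun _ => rfl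
  let G' : S →ₐ[ℂ] B ⧸ 𝔟 :=
    { G with
      commutes' := fun c => by
        have h1 : algebraMap ℂ S c = κ (algebraMap ℂ T c) := (κ.commutes c).symm
        have h2 : Ideal.Quotient.mk 𝔞 (algebraMap ℂ Q c) = f (algebraMap ℂ T c) := by
          rw [f.commutes]; rfl
        change G (algebraMap ℂ S c) = _
        rw [h1, hG _ _ h2]
        rfl }
  obtain ⟨ψ, hψ⟩ := Algebra.FormallySmooth.comp_surjective ℂ S 𝔟 h𝔟2 G'
  have hψ' : ∀ s, Ideal.Quotient.mk 𝔟 (ψ s) = G s := fun s => DFunLike.congr_fun hψ s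
  have hpb : ∀ b ∈ 𝔟, p b ∈ 𝔞 := by
    have h1 : ∀ b ∈ 𝔟, ∀ c, p (c * b) ∈ 𝔞 := by
      intro b hb
      rw [h𝔟] at hb
      have hb' : b ∈ Submodule.span B (algebraMap Q B '' (𝔞 : Set Q)) := hb
      clear hb
      induction hb' using Submodule.span_induction with
      | mem x hx =>
        obtain ⟨y, hy, rfl⟩ := hx
        intro c
        rw [mul_comm, hp]
        exact 𝔞.mul_mem_right _ hy
      | zero => intro c; rw [mul_zero, map_zero]; exact 𝔞.zero_mem
      | add x y _ _ hx hy => intro c; rw [mul_add, map_add]; exact 𝔞.add_mem (hx c) (hy c)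
      | smul a x _ hx =>
        intro c
        rw [smul_eq_mul, ← mul_assoc]
        exact hx _
    intro b hb
    have := h1 b hb 1
    rwa [one_mul] at this
  have hmul0 : ∀ b ∈ 𝔟, ∀ b' ∈ 𝔟, b * b' = 0 := by
    intro b hb b' hb'
    have h1 : b * b' ∈ 𝔟 ^ 2 := by rw [pow_two]; exact Ideal.mul_mem_mul hb hb'
    rwa [h𝔟2] at h1
  have hmul0' : ∀ a ∈ 𝔞, ∀ a' ∈ 𝔞, a * a' = 0 := by
    intro b hb b' hb'
    have h1 : b * b' ∈ 𝔞 ^ 2 := by rw [pow_two]; exact Ideal.mul_mem_mul hb hb'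
    rwa [h𝔞] at h1
  have hpq : ∀ q, p (algebraMap Q B q) = q := fun q => by
    have := hp q 1
    rwa [mul_one, hp1, mul_one] at this
  have hrep : ∀ t, ∃ q, Ideal.Quotient.mk 𝔞 q = f t ∧ ∃ ε ∈ 𝔟, ψ (κ t) = algebraMap Q B q + ε := by
    intro t
    obtain ⟨q, hq⟩ := Ideal.Quotient.mk_surjective (f t)
    refine ⟨q, hq, ψ (κ t) - algebraMap Q B q, ?_, by ring⟩
    rw [← Ideal.Quotient.eq_zero_iff_mem, map_sub, hψ', hG t q hq, sub_self]
  let g : T →ₐ[ℂ] Q :=
    { toFun := fun t => p (ψ (κ t))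
      map_one' := by simp only [map_one, hp1]
      map_mul' := fun t t' => by
        obtain ⟨q, -, ε, hε, h1⟩ := hrep t
        obtain ⟨q', -, ε', hε', h2⟩ := hrep t'
        have h3 : ψ (κ (t * t')) = algebraMap Q B (q * q') + algebraMap Q B q * ε' +
            algebraMap Q B q' * ε := by
          rw [map_mul, map_mul, h1, h2, map_mul]
          have := hmul0 ε hε ε' hε'
          linear_combination this
        rw [h3, h1, h2, map_add, map_add, map_add, map_add, hp, hp, hpq, hpq, hpq]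
        have h4 := hmul0' _ (hpb ε hε) _ (hpb ε' hε')
        linear_combination -h4
      map_zero' := by simp only [map_zero]
      map_add' := fun t t' => by simp only [map_add]
      commutes' := fun c => by
        change p (ψ (κ (algebraMap ℂ T c))) = _
        rw [κ.commutes, ψ.commutes, halg, hpq] }
  refine ⟨g, ?_⟩
  apply AlgHom.ext
  intro t
  obtain ⟨q, hq, ε, hε, h1⟩ := hrep t
  change Ideal.Quotient.mk 𝔞 (p (ψ (κ t))) = f t
  rw [h1, map_add, hpq, map_add, hq]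
  have := Ideal.Quotient.eq_zero_iff_mem.mpr (hpb ε hε)
  rw [this, add_zero]

/-- Descent of formal smoothness along `κ : T → S`, if homomorphisms from `T` to quotients `Q / 𝔞`
extend to `S` after enlarging `Q` to an algebra `B` with a `Q`-linear retraction. -/
theorem formallySmooth_descent {T S : Type} [CommRing T] [Algebra ℂ T] [CommRing S] [Algebra ℂ S]
    (κ : T →ₐ[ℂ] S) (hS : Algebra.FormallySmooth ℂ S)
    (hext : ∀ (Q : Type) [CommRing Q] [Algebra ℂ Q] (𝔞 : Ideal Q), 𝔞 ^ 2 = ⊥ →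
      ∀ f : T →ₐ[ℂ] Q ⧸ 𝔞, ∃ (B : Type) (_ : CommRing B) (_ : Algebra Q B) (p : B →+ Q),
        (∀ q b, p (algebraMap Q B q * b) = q * p b) ∧ p 1 = 1 ∧
        ∃ G : S →+* B ⧸ 𝔞.map (algebraMap Q B), ∀ t q, Ideal.Quotient.mk 𝔞 q = f t →
          G (κ t) = Ideal.Quotient.mk _ (algebraMap Q B q)) :
    Algebra.FormallySmooth ℂ T := by
  refine .of_comp_surjective fun Q _ _ 𝔞 h𝔞 f ↦ ?_
  obtain ⟨B, _, _, p, hp, hp1, G, hG⟩ := hext Q 𝔞 h𝔞 f
  exact descent_aux κ hS 𝔞 h𝔞 f p hp hp1 _ rfl G hG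

/-! ## The algebra `B` -/

section Tw

variable {Q F : Type} [CommRing Q] [AddCommGroup F] (Λ : AddSubgroup F) (ω : Λ → Q)

/-- the weights -/
def wgt (e : F) : Q := by
  classical
  exact if h : e ∈ Λ then ω ⟨e, h⟩ else 0

theorem wgt_mem {e : F} (h : e ∈ Λ) : wgt Λ ω e = ω ⟨e, h⟩ := by
  classical
  unfold wgt
  rw [dif_pos h]

theorem wgt_notMem {e : F} (h : e ∉ Λ) : wgt Λ ω e = 0 := by
  classical
  unfold wgt
  rw [dif_neg h]

/-- the linear form on the group algebra -/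
def p0 : AddMonoidAlgebra Q F →+ Q :=
  (Finsupp.liftAddHom (fun e => AddMonoidHom.mulRight (wgt Λ ω e))).comp
    AddMonoidAlgebra.coeffAddEquiv.toAddMonoidHom

theorem p0_single (e : F) (q : Q) :
    p0 Λ ω (AddMonoidAlgebra.single e q) = q * wgt Λ ω e := by
  simp [p0, AddMonoidAlgebra.coeffAddEquiv]

/-- the ideal of relations `[λ] = ω(λ)` -/
def relIdeal : Ideal (AddMonoidAlgebra Q F) :=
  Ideal.span (Set.range fun l : Λ =>
    AddMonoidAlgebra.single (l : F) 1 - AddMonoidAlgebra.single 0 (ω l))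

theorem p0_relIdeal (hadd : ∀ l l' : Λ, ω (l + l') = ω l * ω l') (x : AddMonoidAlgebra Q F)
    (hx : x ∈ relIdeal Λ ω) : p0 Λ ω x = 0 := by
  have h1 : ∀ x ∈ relIdeal Λ ω, ∀ c, p0 Λ ω (c * x) = 0 := by
    intro x hx
    induction hx using Submodule.span_induction with
    | mem x hx =>
      obtain ⟨l, rfl⟩ := hx
      intro c
      induction c using AddMonoidAlgebra.induction_linear with
      | zero => rw [zero_mul, map_zero]
      | add f g hf hg => rw [add_mul, map_add, hf, hg, add_zero]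
      | single e q =>
        simp only
        rw [mul_sub, AddMonoidAlgebra.single_mul_single, AddMonoidAlgebra.single_mul_single,
          map_sub, p0_single, p0_single, add_zero, mul_one]
        by_cases he : e ∈ Λ
        · have he' : e + l ∈ Λ := Λ.add_mem he l.2
          rw [wgt_mem Λ ω he, wgt_mem Λ ω he']
          have h2 : (⟨e + l, he'⟩ : Λ) = ⟨e, he⟩ + l := rfl
          rw [h2, hadd]
          ring
        · have he' : e + l ∉ Λ := fun h => he (by
            have := Λ.sub_mem h l.2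
            rwa [add_sub_cancel_right] at this)
          rw [wgt_notMem Λ ω he, wgt_notMem Λ ω he']
          ring
    | zero => intro c; rw [mul_zero, map_zero]
    | add x y _ _ hx hy => intro c; rw [mul_add, map_add, hx, hy, add_zero]
    | smul a x _ hx =>
      intro c
      rw [smul_eq_mul, ← mul_assoc]
      exact hx _
  have := h1 x hx 1
  rwa [one_mul] at this

/-- the algebra -/
abbrev BAlg : Type := AddMonoidAlgebra Q F ⧸ relIdeal Λ ω

theorem exists_p (h0 : ω 0 = 1) (hadd : ∀ l l' : Λ, ω (l + l') = ω l * ω l') :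
    ∃ p : BAlg Λ ω →+ Q, (∀ q b, p (algebraMap Q (BAlg Λ ω) q * b) = q * p b) ∧ p 1 = 1 ∧
      ∀ x, p (Ideal.Quotient.mk (relIdeal Λ ω) x) = p0 Λ ω x := by
  have hkey : ∀ x y : AddMonoidAlgebra Q F,
      Ideal.Quotient.mk (relIdeal Λ ω) x = Ideal.Quotient.mk (relIdeal Λ ω) y →
      p0 Λ ω x = p0 Λ ω y := by
    intro x y h
    rw [← sub_eq_zero, ← map_sub]
    exact p0_relIdeal Λ ω hadd _ (Ideal.Quotient.eq.mp h)
  have hs : Function.Surjective (Ideal.Quotient.mk (relIdeal Λ ω)) := Ideal.Quotient.mk_surjective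
  choose s hs using hs
  have hps : ∀ x, p0 Λ ω (s (Ideal.Quotient.mk (relIdeal Λ ω) x)) = p0 Λ ω x :=
    fun x => hkey _ _ (hs _)
  refine ⟨{ toFun := fun b => p0 Λ ω (s b)
            map_zero' := by
              have := hps 0
              rwa [map_zero, map_zero] at this
            map_add' := fun b b' => by
              obtain ⟨x, rfl⟩ := Ideal.Quotient.mk_surjective b
              obtain ⟨y, rfl⟩ := Ideal.Quotient.mk_surjective b'
              rw [← map_add, hps, hps, hps, map_add] }, ?_, ?_, hps⟩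
  · intro q b
    obtain ⟨x, rfl⟩ := Ideal.Quotient.mk_surjective b
    change p0 Λ ω (s (algebraMap Q (BAlg Λ ω) q * Ideal.Quotient.mk (relIdeal Λ ω) x)) =
      q * p0 Λ ω (s (Ideal.Quotient.mk (relIdeal Λ ω) x))
    have h1 : algebraMap Q (BAlg Λ ω) q =
        Ideal.Quotient.mk (relIdeal Λ ω) (AddMonoidAlgebra.single 0 q) := rfl
    rw [h1, ← map_mul, hps, hps]
    induction x using AddMonoidAlgebra.induction_linear with
    | zero => rw [mul_zero, map_zero, mul_zero]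
    | add f g hf hg => rw [mul_add, map_add, hf, hg, map_add, mul_add]
    | single e r =>
      rw [AddMonoidAlgebra.single_mul_single, p0_single, p0_single, zero_add]
      ring
  · change p0 Λ ω (s 1) = 1
    have h1 : (1 : BAlg Λ ω) = Ideal.Quotient.mk (relIdeal Λ ω) (AddMonoidAlgebra.single 0 1) := rfl
    rw [h1, hps, p0_single, wgt_mem Λ ω Λ.zero_mem, one_mul]
    exact h0

/-- the units of `B` -/
def tw (e : F) : BAlg Λ ω :=
  Ideal.Quotient.mk (relIdeal Λ ω) (AddMonoidAlgebra.single e 1)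

theorem tw_zero : tw Λ ω 0 = 1 := rfl

theorem tw_add (e e' : F) : tw Λ ω (e + e') = tw Λ ω e * tw Λ ω e' := by
  unfold tw
  rw [← map_mul, AddMonoidAlgebra.single_mul_single, mul_one]

theorem tw_mem (l : Λ) : tw Λ ω l = algebraMap Q (BAlg Λ ω) (ω l) := by
  have h1 : algebraMap Q (BAlg Λ ω) (ω l) =
      Ideal.Quotient.mk (relIdeal Λ ω) (AddMonoidAlgebra.single 0 (ω l)) := rfl
  rw [h1]
  unfold tw
  rw [Ideal.Quotient.eq]
  exact Ideal.subset_span ⟨l, rfl⟩

end Tw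

section Apply

variable {H R : Type} [AddCommGroup H] [DecidableEq H] [CommRing R] [Algebra ℂ R]
  {ℛ : H → Submodule ℂ R} [GradedAlgebra ℛ] {L : H}
  {A : Type} [CommRing A] [Algebra ℂ A] {𝒜 : ℕ → Submodule ℂ A} [GradedAlgebra 𝒜]

/-- the extensions needed for the descent of formal smoothness -/
theorem exists_B (sr : SectionRing ℛ L A 𝒜) {h : A} {n : ℕ} (hh : h ∈ 𝒜 n)
    {F : Type} [AddCommGroup F] [Module.Free ℤ F] [Module.Finite ℤ F]
    (δ : F →+ H) (hδ : Function.Surjective δ)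
    (U : F → Localization.Away (sr.ι h)) (hU0 : U 0 = 1) (hUadd : ∀ e e', U (e + e') = U e * U e')
    (hU : ∀ e, HasDeg ℛ L n (sr.ι h) (U e) (δ e))
    (Q : Type) [CommRing Q] (𝔞 : Ideal Q) (h𝔞 : 𝔞 ^ 2 = ⊥)
    (f : HomogeneousLocalization.Away 𝒜 h →+* Q ⧸ 𝔞) :
    ∃ (B : Type) (_ : CommRing B) (_ : Algebra Q B) (p : B →+ Q),
      (∀ q b, p (algebraMap Q B q * b) = q * p b) ∧ p 1 = 1 ∧
      ∃ G : Localization.Away (sr.ι h) →+* B ⧸ 𝔞.map (algebraMap Q B),
        ∀ t q, Ideal.Quotient.mk 𝔞 q = f t →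
          G (kap sr h t) = Ideal.Quotient.mk _ (algebraMap Q B q) := by
  have hinj := kap_injective sr h
  have hnil : IsNilpotent 𝔞 := ⟨2, h𝔞⟩
  let Λ : Submodule ℤ F := LinearMap.ker δ.toIntLinearMap
  have hΛ : ∀ l : Λ, δ (l : F) = 0 := fun l => l.2
  have hz : ∀ l : Λ, ∃ z, kap sr h z = U l := by
    intro l
    apply exists_kap sr hh
    have := hU l
    rwa [hΛ l] at this
  choose z hz using hz
  have hz0 : z 0 = 1 := hinj (by rw [hz, map_one]; exact hU0)
  have hzadd : ∀ l l', z (l + l') = z l * z l' := fun l l' => hinj (by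
    rw [hz, map_mul, hz, hz]; exact hUadd _ _)
  have hzinv : ∀ l, z l * z (-l) = 1 := fun l => by rw [← hzadd, add_neg_cancel, hz0]
  let ω0 : Λ →+ Additive (Q ⧸ 𝔞)ˣ :=
    { toFun := fun l => Additive.ofMul
        ⟨f (z l), f (z (-l)), by rw [← map_mul, hzinv, map_one],
          by rw [← map_mul, mul_comm, hzinv, map_one]⟩
      map_zero' := by
        apply Additive.toMul.injective
        apply Units.ext
        change f (z 0) = 1
        rw [hz0, map_one]
      map_add' := fun l l' => by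
        apply Additive.toMul.injective
        apply Units.ext
        change f (z (l + l')) = f (z l) * f (z l')
        rw [hzadd, map_mul] }
  let ρ : Additive Qˣ →+ Additive (Q ⧸ 𝔞)ˣ :=
    (Units.map (Ideal.Quotient.mk 𝔞 : Q →* Q ⧸ 𝔞)).toAdditive
  have hρ : Function.Surjective ρ := by
    intro u
    obtain ⟨q, hq⟩ := Ideal.Quotient.mk_surjective ((Additive.toMul u : (Q ⧸ 𝔞)ˣ) : Q ⧸ 𝔞)
    have hqu : IsUnit q := by
      rw [← hnil.isUnit_quotient_mk_iff, hq]
      exact Units.isUnit _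
    obtain ⟨q', rfl⟩ := hqu
    refine ⟨Additive.ofMul q', ?_⟩
    apply Additive.toMul.injective
    apply Units.ext
    exact hq
  obtain ⟨ω1, hω1⟩ := Module.projective_lifting_property ρ.toIntLinearMap ω0.toIntLinearMap hρ
  have hω1' : ∀ l, ρ (ω1 l) = ω0 l := fun l => DFunLike.congr_fun hω1 l
  let ω : Λ.toAddSubgroup → Q := fun l => ((Additive.toMul (ω1 l) : Qˣ) : Q)
  have hω0 : ω 0 = 1 := by
    change ((Additive.toMul (ω1 0) : Qˣ) : Q) = 1
    rw [map_zero]; rfl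
  have hωadd : ∀ l l', ω (l + l') = ω l * ω l' := by
    intro l l'
    change ((Additive.toMul (ω1 (l + l')) : Qˣ) : Q) = _
    rw [map_add]; rfl
  have hωf : ∀ l : Λ, Ideal.Quotient.mk 𝔞 (ω l) = f (z l) := by
    intro l
    have h1 := congrArg (fun u => ((Additive.toMul u : (Q ⧸ 𝔞)ˣ) : Q ⧸ 𝔞)) (hω1' l)
    exact h1
  obtain ⟨p, hp, hp1, -⟩ := exists_p Λ.toAddSubgroup ω hω0 hωadd
  refine ⟨BAlg Λ.toAddSubgroup ω, inferInstance, inferInstance, p, hp, hp1, ?_⟩
  let χ0 : Q ⧸ 𝔞 →+* BAlg Λ.toAddSubgroup ω ⧸ 𝔞.map (algebraMap Q (BAlg Λ.toAddSubgroup ω)) :=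
    Ideal.quotientMap _ (algebraMap Q (BAlg Λ.toAddSubgroup ω)) Ideal.le_comap_map
  have hχ0 : ∀ q, χ0 (Ideal.Quotient.mk 𝔞 q) = Ideal.Quotient.mk _
      (algebraMap Q (BAlg Λ.toAddSubgroup ω) q) := fun q => Ideal.quotientMap_mk
  obtain ⟨G, hG, -⟩ := exists_ext sr hh δ hδ U hU0 hUadd hU (χ0.comp f)
    (fun e => Ideal.Quotient.mk _ (tw Λ.toAddSubgroup ω e))
    (by rw [tw_zero, map_one]) (fun e e' => by rw [tw_add, map_mul])
    (by
      intro e he t ht
      have h1 : t = z ⟨e, he⟩ := hinj (by rw [ht, hz])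
      rw [RingHom.comp_apply, h1, ← hωf, hχ0]
      congr 1
      exact (tw_mem Λ.toAddSubgroup ω ⟨e, he⟩).symm)
  refine ⟨G, fun t q hq => ?_⟩
  rw [hG, RingHom.comp_apply, ← hq, hχ0]

end Apply

end

end Pool.TVar.MG
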