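import Pool.Agent.Work.MP_dcf6a6_mg.Ret

/-!
# Extending homomorphisms from `(A_h)_0` to `R_h` for an arbitrary grading group
-/

open CategoryTheory AlgebraicGeometry

namespace Pool.TVar.MG

noncomputable section

variable {H R : Type} [AddCommGroup H] [DecidableEq H] [CommRing R] [Algebra ℂ R]
  {ℛ : H → Submodule ℂ R} [GradedAlgebra ℛ] {L : H}
  {A : Type} [CommRing A] [Algebra ℂ A] {𝒜 : ℕ → Submodule ℂ A} [GradedAlgebra 𝒜]

/-- homogeneous elements of degree zero of `R_{ι h}` come from `(A_h)_0` -/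
theorem exists_kap (sr : SectionRing ℛ L A 𝒜) {h : A} {n : ℕ} (hh : h ∈ 𝒜 n)
    {u : Localization.Away (sr.ι h)} (hu : HasDeg ℛ L n (sr.ι h) u 0) :
    ∃ z, kap sr h z = u := by
  obtain ⟨k, c, hc, hk⟩ := hu
  rw [zero_add, smul_smul] at hc
  obtain ⟨b, hb, rfl⟩ := mem_section sr hc
  have hpow : h ^ k ∈ 𝒜 (k * n) := by
    have := SetLike.pow_mem_graded k hh
    simpa using this
  refine ⟨HomogeneousLocalization.mk ⟨k * n, ⟨b, hb⟩, ⟨h ^ k, hpow⟩, ⟨k, rfl⟩⟩, ?_⟩
  have h1 : IsUnit (algebraMap R (Localization.Away (sr.ι h)) (sr.ι h ^ k)) := by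
    rw [map_pow]; exact (IsLocalization.Away.algebraMap_isUnit (sr.ι h)).pow _
  apply h1.mul_right_cancel
  rw [hk]
  have h2 := kap_mk sr h ⟨k * n, ⟨b, hb⟩, ⟨h ^ k, hpow⟩, ⟨k, rfl⟩⟩
  simp only [map_pow] at h2 ⊢
  exact h2

omit [DecidableEq H] [GradedAlgebra ℛ] in
theorem hasDeg_of_mem {n : ℕ} {g r : R} {η : H} (hr : r ∈ ℛ η) :
    HasDeg ℛ L n g (algebraMap R (Localization.Away g) r) η := by
  refine ⟨0, r, ?_, ?_⟩
  · rw [zero_smul, add_zero]; exact hr
  · rw [pow_zero, map_one, mul_one]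

/-- a ring homomorphism from a multiplicative family of additive maps -/
theorem exists_gradedHom {C : Type} [CommRing C] (f : ∀ η, ℛ η →+ C)
    (hone : f 0 ⟨1, SetLike.GradedOne.one_mem⟩ = 1)
    (hmul : ∀ i j (x : ℛ i) (y : ℛ j),
      f (i + j) ⟨x * y, SetLike.mul_mem_graded x.2 y.2⟩ = f i x * f j y) :
    ∃ G0 : R →+* C, ∀ η (r : ℛ η), G0 r = f η r := by
  refine ⟨(DirectSum.toSemiring f hone (fun {i j} x y => hmul i j x y)).comp
      (DirectSum.decomposeRingEquiv ℛ).toRingHom, fun η r => ?_⟩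
  have h1 : (DirectSum.decomposeRingEquiv ℛ).toRingHom (r : R) =
      DirectSum.of (fun i => ℛ i) η r := DirectSum.decompose_coe ℛ r
  rw [RingHom.comp_apply, h1, DirectSum.toSemiring_of]

/-- extension of homomorphisms along `(A_h)_0 → R_{ι h}` -/
theorem exists_ext (sr : SectionRing ℛ L A 𝒜) {h : A} {n : ℕ} (hh : h ∈ 𝒜 n)
    {F : Type} [AddCommGroup F] (δ : F →+ H) (hδ : Function.Surjective δ)
    (U : F → Localization.Away (sr.ι h)) (hU0 : U 0 = 1) (hUadd : ∀ e e', U (e + e') = U e * U e')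
    (hU : ∀ e, HasDeg ℛ L n (sr.ι h) (U e) (δ e))
    {C : Type} [CommRing C] (χ : HomogeneousLocalization.Away 𝒜 h →+* C)
    (t : F → C) (ht0 : t 0 = 1) (htadd : ∀ e e', t (e + e') = t e * t e')
    (hχ : ∀ e, δ e = 0 → ∀ z, kap sr h z = U e → χ z = t e) :
    ∃ G : Localization.Away (sr.ι h) →+* C, (∀ z, G (kap sr h z) = χ z) ∧
      ∀ e, G (U e) = t e := by
  classical
  have hinj := kap_injective sr h
  set a : R →+* Localization.Away (sr.ι h) := algebraMap R _ with ha
  have hahu : IsUnit (a (sr.ι h)) := IsLocalization.Away.algebraMap_isUnit (sr.ι h)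
  choose e he using hδ
  have hUinv : ∀ x, U x * U (-x) = 1 := fun x => by rw [← hUadd, add_neg_cancel, hU0]
  have htinv : ∀ x, t x * t (-x) = 1 := fun x => by rw [← htadd, add_neg_cancel, ht0]
  have hZ : ∀ (η : H) (r : ℛ η), ∃ z, kap sr h z = a r * U (-e η) := by
    intro η r
    apply exists_kap sr hh
    have h1 := hasDeg_mul (hasDeg_of_mem (L := L) (n := n) (g := sr.ι h) r.2) (hU (-e η))
    rwa [map_neg, he, add_neg_cancel] at h1
  choose Z hZ using hZ
  let f : ∀ η, ℛ η →+ C := fun η =>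
    { toFun := fun r => χ (Z η r) * t (e η)
      map_zero' := by
        have : Z η 0 = 0 := hinj (by rw [hZ, map_zero]; simp)
        rw [this, map_zero, zero_mul]
      map_add' := fun x y => by
        have : Z η (x + y) = Z η x + Z η y := hinj (by
          rw [map_add, hZ, hZ, hZ, Submodule.coe_add, map_add, add_mul])
        rw [this, map_add, add_mul] }
  have hf : ∀ η r, f η r = χ (Z η r) * t (e η) := fun _ _ => rfl
  obtain ⟨G0, hG0f⟩ := exists_gradedHom f
    (by
      rw [hf]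
      have h1 : kap sr h (Z 0 ⟨1, SetLike.GradedOne.one_mem⟩) = U (-e 0) := by
        rw [hZ, map_one, one_mul]
      rw [hχ (-e 0) (by rw [map_neg, he, neg_zero]) _ h1, mul_comm, htinv])
    (by
      intro i j x y
      rw [hf, hf, hf]
      have hlam : δ (e i + e j - e (i + j)) = 0 := by
        rw [map_sub, map_add, he, he, he, sub_self]
      obtain ⟨zl, hzl⟩ : ∃ z, kap sr h z = U (e i + e j - e (i + j)) := by
        apply exists_kap sr hh
        have := hU (e i + e j - e (i + j))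
        rwa [hlam] at this
      have h1 : Z (i + j) ⟨x * y, SetLike.mul_mem_graded x.2 y.2⟩ = Z i x * Z j y * zl := hinj (by
        rw [map_mul, map_mul, hZ, hZ, hZ, map_mul, hzl]
        have h2 : U (-e i) * U (-e j) * U (e i + e j - e (i + j)) = U (-e (i + j)) := by
          rw [← hUadd, ← hUadd]
          congr 1
          abel
        rw [← h2]
        ring)
      rw [h1, map_mul, map_mul, hχ _ hlam zl hzl]
      have h3 : t (e i + e j - e (i + j)) * t (e (i + j)) = t (e i) * t (e j) := by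
        rw [← htadd, ← htadd]
        congr 1
        abel
      calc χ (Z i x) * χ (Z j y) * t (e i + e j - e (i + j)) * t (e (i + j))
          = χ (Z i x) * χ (Z j y) * (t (e i + e j - e (i + j)) * t (e (i + j))) := by ring
        _ = χ (Z i x) * χ (Z j y) * (t (e i) * t (e j)) := by rw [h3]
        _ = χ (Z i x) * t (e i) * (χ (Z j y) * t (e j)) := by ring)
  have hG0 : ∀ η (r : ℛ η), G0 r = χ (Z η r) * t (e η) := fun η r => (hG0f η r).trans (hf η r)
  have hnL : sr.ι h ∈ ℛ (n • L) := ι_mem sr hh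
  -- the inverse of `ι h`
  obtain ⟨w, hw⟩ := hahu.exists_right_inv
  have hwdeg : HasDeg ℛ L n (sr.ι h) w (-(n • L)) := by
    refine ⟨1, 1, ?_, ?_⟩
    · rw [one_smul, neg_add_cancel]; exact SetLike.GradedOne.one_mem
    · rw [pow_one, map_one, mul_comm]; exact hw
  have hGu : IsUnit (G0 (sr.ι h)) := by
    have h1 := hG0 (n • L) ⟨sr.ι h, hnL⟩
    simp only at h1
    rw [h1]
    have h2 : IsUnit (Z (n • L) ⟨sr.ι h, hnL⟩) := by
      obtain ⟨z', hz'⟩ : ∃ z', kap sr h z' = w * U (e (n • L)) := by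
        apply exists_kap sr hh
        have := hasDeg_mul hwdeg (hU (e (n • L)))
        rwa [he, neg_add_cancel] at this
      refine IsUnit.of_mul_eq_one z' (hinj ?_)
      rw [map_mul, hZ, hz', map_one]
      calc a (sr.ι h) * U (-e (n • L)) * (w * U (e (n • L)))
          = (a (sr.ι h) * w) * (U (e (n • L)) * U (-e (n • L))) := by ring
        _ = 1 := by rw [hw, hUinv, one_mul]
    exact (h2.map χ).mul (IsUnit.of_mul_eq_one _ (htinv _))
  -- the value of `G0` with an arbitrary representative of the degree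
  have hG0' : ∀ (η : H) (r : ℛ η) (x : F) (_ : δ x = η) (z : HomogeneousLocalization.Away 𝒜 h)
      (_ : kap sr h z = a r * U (-x)), G0 r = χ z * t x := by
    intro η r x hx z hz
    have hlam : δ (x - e η) = 0 := by rw [map_sub, he, hx, sub_self]
    obtain ⟨zl, hzl⟩ : ∃ z, kap sr h z = U (x - e η) := by
      apply exists_kap sr hh
      have := hU (x - e η)
      rwa [hlam] at this
    have h1 : Z η r = z * zl := hinj (by
      rw [hZ, map_mul, hz, hzl, mul_assoc, ← hUadd]
      congr 2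
      abel)
    rw [hG0, h1, map_mul, hχ _ hlam zl hzl, mul_assoc, ← htadd]
    congr 2
    abel
  refine ⟨IsLocalization.Away.lift (sr.ι h) hGu, ?_, ?_⟩
  swap
  · intro x
    obtain ⟨k, c, hc, hk⟩ := hU x
    have h1 := congrArg (IsLocalization.Away.lift (S := Localization.Away (sr.ι h)) (sr.ι h) hGu) hk
    rw [map_mul, IsLocalization.Away.lift_eq, IsLocalization.Away.lift_eq, map_pow] at h1
    -- the degree zero part of `ι h`
    obtain ⟨zh, hzh⟩ : ∃ z, kap sr h z = a (sr.ι h) * U (-e (n • L)) := ⟨_, hZ _ ⟨sr.ι h, hnL⟩⟩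
    have h2 : G0 (sr.ι h) = χ zh * t (e (n • L)) := hG0' (n • L) ⟨sr.ι h, hnL⟩ _ (he _) zh hzh
    have hUk : ∀ (y : F) (k : ℕ), U (k • y) = U y ^ k := by
      intro y k
      induction k with
      | zero => rw [zero_smul, hU0, pow_zero]
      | succ k ih => rw [succ_nsmul, hUadd, ih, pow_succ]
    have htk : ∀ (y : F) (k : ℕ), t (k • y) = t y ^ k := by
      intro y k
      induction k with
      | zero => rw [zero_smul, ht0, pow_zero]
      | succ k ih => rw [succ_nsmul, htadd, ih, pow_succ]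
    have h3 : G0 c = χ (zh ^ k) * t (x + k • e (n • L)) := by
      refine hG0' _ ⟨c, hc⟩ _ (by rw [map_add, map_nsmul, he]) _ ?_
      rw [map_pow, hzh]
      simp only
      rw [← hk, map_pow, mul_pow, neg_add, hUadd, ← smul_neg, hUk]
      have := hUinv x
      calc a (sr.ι h) ^ k * U (-e (n • L)) ^ k
          = (U x * U (-x)) * (a (sr.ι h) ^ k * U (-e (n • L)) ^ k) := by rw [this, one_mul]
        _ = U x * a (sr.ι h) ^ k * (U (-x) * U (-e (n • L)) ^ k) := by ring
    rw [h3, htadd, htk, map_pow] at h1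
    have h4 : χ zh ^ k * (t x * t (e (n • L)) ^ k) = t x * G0 (sr.ι h) ^ k := by
      rw [h2, mul_pow]; ring
    rw [h4] at h1
    exact (hGu.pow k).mul_right_cancel h1
  intro z
  obtain ⟨c, rfl⟩ := HomogeneousLocalization.mk_surjective z
  have h1 := kap_mk sr h c
  have h2 := congrArg (IsLocalization.Away.lift (S := Localization.Away (sr.ι h)) (sr.ι h) hGu) h1
  rw [map_mul, IsLocalization.Away.lift_eq, IsLocalization.Away.lift_eq] at h2
  have h3 := hG0 (c.deg • L) ⟨sr.ι c.den, ι_mem sr c.den.2⟩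
  have h4 := hG0 (c.deg • L) ⟨sr.ι c.num, ι_mem sr c.num.2⟩
  have h5 : Z (c.deg • L) ⟨sr.ι c.num, ι_mem sr c.num.2⟩ =
      HomogeneousLocalization.mk c * Z (c.deg • L) ⟨sr.ι c.den, ι_mem sr c.den.2⟩ := hinj (by
    rw [map_mul, hZ, hZ, ha, ← h1]
    ring)
  simp only at h3 h4
  rw [h4, h5, map_mul, mul_assoc, ← h3] at h2
  have hdu : IsUnit (G0 (sr.ι c.den)) := by
    obtain ⟨k, hk⟩ := c.den_mem
    have h6 : G0 (sr.ι c.den) = G0 (sr.ι h) ^ k := by
      rw [← map_pow, ← map_pow]
      exact congrArg (fun t => G0 (sr.ι t)) hk.symm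
    rw [h6]
    exact hGu.pow _
  exact hdu.mul_right_cancel h2

/-- a free group of homogeneous units mapping onto the grading group -/
theorem exists_units {n : ℕ} {g : R} {V : Type} [Finite V] (deg : V → H)
    (x : V → (Localization.Away g)ˣ) (hgen : AddSubgroup.closure (Set.range deg) = ⊤)
    (hx : ∀ v, HasDeg ℛ L n g (x v : Localization.Away g) (deg v))
    (hx' : ∀ v, HasDeg ℛ L n g ((x v)⁻¹ : (Localization.Away g)ˣ) (-deg v)) :
    ∃ (δ : (V →₀ ℤ) →+ H) (U : (V →₀ ℤ) → Localization.Away g), Function.Surjective δ ∧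
      U 0 = 1 ∧ (∀ e e', U (e + e') = U e * U e') ∧ ∀ e, HasDeg ℛ L n g (U e) (δ e) := by
  let S : AddSubgroup (H × Additive (Localization.Away g)ˣ) :=
    { carrier := {p | HasDeg ℛ L n g ((Additive.toMul p.2 : (Localization.Away g)ˣ) :
          Localization.Away g) p.1 ∧
        HasDeg ℛ L n g (((Additive.toMul p.2)⁻¹ : (Localization.Away g)ˣ) :
          Localization.Away g) (-p.1)}
      zero_mem' := by
        constructor
        · simpa using hasDeg_one (ℛ := ℛ) (L := L) n g
        · simpa using hasDeg_one (ℛ := ℛ) (L := L) n g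
      add_mem' := by
        rintro ⟨a, u⟩ ⟨b, w⟩ ⟨h1, h2⟩ ⟨h3, h4⟩
        constructor
        · have := hasDeg_mul h1 h3
          simpa using this
        · have := hasDeg_mul h2 h4
          simpa [mul_comm, neg_add_rev, add_comm] using this
      neg_mem' := by
        rintro ⟨a, u⟩ ⟨h1, h2⟩
        constructor
        · simpa using h2
        · simpa using h1 }
  let Θ : (V →₀ ℤ) →+ S := Finsupp.liftAddHom fun v =>
    zmultiplesHom S ⟨(deg v, Additive.ofMul (x v)), hx v, by simpa using hx' v⟩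
  refine ⟨(AddMonoidHom.fst H _).comp (S.subtype.comp Θ), fun e =>
    ((Additive.toMul (Θ e : H × Additive (Localization.Away g)ˣ).2 :
      (Localization.Away g)ˣ) : Localization.Away g), ?_, ?_, ?_, ?_⟩
  · rw [← AddMonoidHom.range_eq_top, eq_top_iff, ← hgen, AddSubgroup.closure_le]
    rintro _ ⟨v, rfl⟩
    refine ⟨Finsupp.single v 1, ?_⟩
    simp [Θ]
  · simp
  · intro e e'
    simp
  · intro e
    exact (Θ e).2.1

end

end Pool.TVar.MG
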