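import Pool.Agent.Work.MP_dcf6a6_mg.Points
import Pool.Agent.Work.MP_dcf6a6_tv_helper73.FIN

/-!
# Assembly, multigraded case
-/

open CategoryTheory AlgebraicGeometry

namespace Pool.TVar.MG

noncomputable section

variable {J K I B H : Type} [Fintype J] [Fintype K] [Fintype B]
    [DecidableEq J] [DecidableEq K] [DecidableEq I] [AddCommGroup H] [DecidableEq H]
    {D : CoxData J K I B H} {R : Type} [CommRing R] [Algebra ℂ R] {ℛ : H → Submodule ℂ R}
    [GradedAlgebra ℛ] {L : H} {A : Type} [CommRing A] [Algebra ℂ A] {𝒜 : ℕ → Submodule ℂ A}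
    [GradedAlgebra 𝒜]

theorem pi_monomial_mem (pr : D.Pres R ℛ) (n : (J ⊕ K) →₀ ℕ) (c : ℂ) :
    pr.π (MvPolynomial.monomial n c) ∈ ℛ (Finsupp.weight D.deg n) := by
  rw [MvPolynomial.monomial_eq, map_mul]
  have h0 : pr.π (MvPolynomial.C c) = algebraMap ℂ R c := by
    rw [← MvPolynomial.algebraMap_eq]; exact pr.π.commutes c
  rw [h0, ← Algebra.smul_def]
  refine Submodule.smul_mem _ _ ?_
  rw [Finsupp.prod, map_prod, Finsupp.weight_apply, Finsupp.sum]
  refine SetLike.prod_mem_graded _ _ _ fun v _ => ?_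
  rw [map_pow]
  exact SetLike.pow_mem_graded _ (pr.graded v)

/-- elements of degree `η` are images of polynomials of weighted degree `d(η)` -/
theorem exists_homog_rep (pr : D.Pres R ℛ) (d : H →+ ℤ) (hd : ∀ v, 0 < d (D.deg v))
    (hs : Function.Surjective d) (η : H) (r : R) (hr : r ∈ ℛ η) :
    ∃ P : MvPolynomial (J ⊕ K) ℂ,
      P.IsWeightedHomogeneous (toData D d hd hs).wt (d η).toNat ∧ pr.π P = r := by
  have key : ∀ P : MvPolynomial (J ⊕ K) ℂ, ∃ P' : MvPolynomial (J ⊕ K) ℂ,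
      P'.IsWeightedHomogeneous (toData D d hd hs).wt (d η).toNat ∧
        pr.π P' = ((DirectSum.decompose ℛ (pr.π P) η : ℛ η) : R) := by
    intro P
    induction P using MvPolynomial.induction_on' with
    | monomial n c =>
      by_cases hn : Finsupp.weight D.deg n = η
      · refine ⟨MvPolynomial.monomial n c, ?_, ?_⟩
        · apply MvPolynomial.isWeightedHomogeneous_monomial
          have h1 := weight_cast D.deg d hd n
          rw [hn] at h1
          have h2 : (toData D d hd hs).wt = fun v => (d (D.deg v)).toNat :=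
            funext (toData_wt D d hd hs)
          rw [h2]
          omega
        · subst hn
          rw [DirectSum.decompose_of_mem_same _ (pi_monomial_mem pr n c)]
      · refine ⟨0, MvPolynomial.isWeightedHomogeneous_zero _ _ _, ?_⟩
        rw [DirectSum.decompose_of_mem_ne _ (pi_monomial_mem pr n c) hn, map_zero]
    | add p q hp hq =>
      obtain ⟨p', hp1, hp2⟩ := hp
      obtain ⟨q', hq1, hq2⟩ := hq
      refine ⟨p' + q', hp1.add hq1, ?_⟩
      rw [map_add, map_add, DirectSum.decompose_add, DirectSum.add_apply, Submodule.coe_add,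
        hp2, hq2]
  obtain ⟨P, rfl⟩ := pr.surj r
  obtain ⟨P', h1, h2⟩ := key P
  exact ⟨P', h1, by rw [h2, DirectSum.decompose_of_mem_same _ hr]⟩

theorem algHom_ext_of (pr : D.Pres R ℛ) {C : Type} [CommRing C] [Algebra ℂ C] (f g : R →ₐ[ℂ] C)
    (h : ∀ v, f (xv pr v) = g (xv pr v)) (a : R) : f a = g a := by
  obtain ⟨P, rfl⟩ := pr.surj a
  have : f.comp pr.π = g.comp pr.π := MvPolynomial.algHom_ext h
  exact DFunLike.congr_fun this P

omit [DecidableEq H] in
theorem exists_ne (D : CoxData J K I B H) (v : J ⊕ K) : ∃ v', v' ≠ v := by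
  by_contra hcon
  push Not at hcon
  obtain ⟨d, hd⟩ := D.pointed
  have h1 : D.deg '' {v}ᶜ = ∅ := by
    rw [Set.image_eq_empty, Set.eq_empty_iff_forall_notMem]
    intro v' hv'
    exact hv' (hcon v')
  have h2 := D.generated v
  rw [h1, AddSubgroup.closure_empty] at h2
  have h3 : D.deg v ∈ (⊥ : AddSubgroup H) := by rw [h2]; trivial
  rw [AddSubgroup.mem_bot] at h3
  have := hd v
  rw [h3, map_zero] at this
  exact lt_irrefl _ this

theorem prod_notMem {S : Type} [CommRing S] (q : Ideal S) (hq : q.IsPrime) {V : Type} [Fintype V]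
    (F : V → S) (e : V → ℕ) (h : ∀ v, e v ≠ 0 → F v ∉ q) : ∏ v, F v ^ e v ∉ q := by
  intro hmem
  rw [hq.prod_mem_iff] at hmem
  obtain ⟨v, -, hv⟩ := hmem
  by_cases he : e v = 0
  · rw [he, pow_zero] at hv
    exact hq.ne_top ((Ideal.eq_top_iff_one _).mpr hv)
  · exact h v he (hq.mem_of_pow_mem _ hv)

theorem main [IsDomain R] (hLOC : Stmt_LOC) (hPMAP : Stmt_PMAP)
    (hCORE : Stmt_CORE) (hPHI : Stmt_PHI) (hP1 : Stmt_P1) (hNZ : Stmt_NZ)
    (hDENS : Stmt_DENS) (pr : D.Pres R ℛ) (hL : D.MovingInterior L)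
    (sr : SectionRing ℛ L A 𝒜) :
    ∃ U : (Proj 𝒜).Opens, Dense (U : Set (Proj 𝒜)) ∧ (∀ x ∈ U, IsSmoothPt (structMap 𝒜) x) ∧
      ∀ x y : Proj 𝒜, x ∈ U → y ∈ U → IsClosed ({x} : Set (Proj 𝒜)) →
        IsClosed ({y} : Set (Proj 𝒜)) →
        ∃ f : Proj lineGr ⟶ Proj 𝒜, f ≫ structMap 𝒜 = structMap lineGr ∧
          (∀ q, IsSmoothPt (structMap 𝒜) (f q)) ∧ (∃ q q', f q ≠ f q') ∧
          x ∈ Set.range f ∧ y ∈ Set.range f := by
  classical
  have hdom : IsDomain A := sr.inj.isDomain sr.ι.toRingHom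
  obtain ⟨v₀⟩ := D.nonempty
  obtain ⟨v₁, hv₁⟩ := exists_ne D v₀
  obtain ⟨d, hd, hs⟩ := exists_primitive D v₀
  set D' := toData D d hd hs with hD'
  obtain ⟨𝒬, _, hQ⟩ := exists_grading D' pr.π pr.surj pr.ker
  let pr' : D'.Pres R 𝒬 :=
    { π := pr.π
      surj := pr.surj
      graded := fun v => hQ _ _ (MvPolynomial.isWeightedHomogeneous_X ℂ D'.wt v)
      ker := pr.ker }
  have hx0 : ∀ v, xv pr v ≠ 0 := fun v => hNZ D' 𝒬 pr' v
  -- the monomials `h_v`
  choose nn hnn ee he0 hepos hesum using hL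
  have hhv : ∀ v, ∃ h ∈ 𝒜 (nn v), sr.ι h = ∏ v', xv pr v' ^ ee v v' := by
    intro v
    have h1 := mono_mem pr (ee v)
    rw [hesum v] at h1
    exact mem_section sr h1
  choose hv hvmem hvι using hhv
  have hsm : ∀ (x : Proj 𝒜) (v : J ⊕ K), hv v ∉ x.asHomogeneousIdeal →
      IsSmoothPt (structMap 𝒜) x := by
    intro x v hx
    exact hLOC 𝒜 (hv v) (nn v) (hvmem v) (hnn v)
      (smooth_away pr sr v (hvmem v) (ee v) (he0 v) (hepos v) (hesum v) (hvι v)) x hx
  -- the monomial `g`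
  set g := hv v₀ * hv v₁ with hg
  set eg : J ⊕ K → ℕ := fun v => ee v₀ v + ee v₁ v with heg
  have hgmem : g ∈ 𝒜 (nn v₀ + nn v₁) := SetLike.mul_mem_graded (hvmem v₀) (hvmem v₁)
  have hgι : sr.ι g = ∏ v, xv pr v ^ eg v := by
    rw [hg, map_mul, hvι, hvι, ← Finset.prod_mul_distrib]
    exact Finset.prod_congr rfl fun v _ => (pow_add _ _ _).symm
  have hegpos : ∀ v, 0 < eg v := by
    intro v
    by_cases h : v = v₀
    · have := hepos v₁ v (by rw [h]; exact hv₁.symm)
      simp only [heg]; omega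
    · have := hepos v₀ v h
      simp only [heg]; omega
  have hegsum : ∑ v, eg v • D.deg v = (nn v₀ + nn v₁) • L := by
    rw [add_smul, ← hesum v₀, ← hesum v₁, ← Finset.sum_add_distrib]
    exact Finset.sum_congr rfl fun v _ => add_smul _ _ _
  have hgpos : 0 < nn v₀ + nn v₁ := by have := hnn v₀; omega
  have hg0 : g ≠ 0 := by
    intro h
    have h1 : sr.ι g = 0 := by rw [h, map_zero]
    rw [hgι, Finset.prod_eq_zero_iff] at h1
    obtain ⟨v, -, h2⟩ := h1
    exact hx0 v (pow_eq_zero_iff (hegpos v).ne' |>.mp h2)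
  -- `d L > 0`
  have hdL : 0 < d L := by
    have h1 := congrArg d (hesum v₀)
    rw [map_sum, map_nsmul] at h1
    have h2 : 0 < ∑ v, d (ee v₀ v • D.deg v) := by
      refine Finset.sum_pos' (fun v _ => ?_) ⟨v₁, Finset.mem_univ _, ?_⟩
      · rw [map_nsmul]; exact nsmul_nonneg (hd v).le _
      · rw [map_nsmul]; exact nsmul_pos (hd v₁) (hepos v₀ v₁ hv₁).ne'
    rw [h1] at h2
    by_contra hcon
    push Not at hcon
    have h3 : (nn v₀) • d L ≤ 0 := by
      rw [nsmul_eq_mul]
      exact mul_nonpos_of_nonneg_of_nonpos (by positivity) hcon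
    omega
  refine ⟨Proj.basicOpen 𝒜 g, hDENS 𝒜 g _ hgmem hg0, ?_, ?_⟩
  · intro x hx
    refine hsm x v₀ fun h => hx ?_
    exact x.asHomogeneousIdeal.toIdeal.mul_mem_right _ h
  · intro x y hx hy hxc hyc
    obtain ⟨ex, hexg, hex⟩ := exists_point pr sr v₀ hgpos hgmem eg (fun v _ => hegpos v) hegsum
      hgι x hx hxc
    obtain ⟨ey, heyg, hey⟩ := exists_point pr sr v₀ hgpos hgmem eg (fun v _ => hegpos v) hegsum
      hgι y hy hyc
    have hcoord : ∀ e : R →ₐ[ℂ] ℂ, e (sr.ι g) ≠ 0 → ∀ v, e (xv pr v) ≠ 0 := by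
      intro e he v h
      apply he
      rw [hgι, map_prod, Finset.prod_eq_zero_iff]
      exact ⟨v, Finset.mem_univ _, by rw [map_pow, h, zero_pow (hegpos v).ne']⟩
    obtain ⟨N, τ, hN, hτ, hrel, hcop⟩ := hCORE D' (fun v => ex (xv pr v)) (fun v => ey (xv pr v))
      (Pool.TVar.helper73.isPt_of pr' ex) (Pool.TVar.helper73.isPt_of pr' ey)
      (hcoord ex hexg) (hcoord ey heyg)
    obtain ⟨φ, hφgr, hφ1, hφ0, hφq⟩ := hPHI D' 𝒬 pr' (fun v => ey (xv pr v)) N τ hN
      (hcoord ey heyg) (fun v => ⟨(hτ v).1, (hτ v).2.1⟩) hrel hcop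
    set ψ : A →ₐ[ℂ] MvPolynomial (Fin 2) ℂ := φ.comp sr.ι with hψ
    have hψgr : ∀ n, ∀ a ∈ 𝒜 n, ψ a ∈ lineGr (N * (d L).toNat * n) := by
      intro n a ha
      have h1 := ι_mem sr ha
      obtain ⟨P, hP, hPr⟩ := exists_homog_rep pr d hd hs _ _ h1
      have h2 := hφgr _ _ (hQ _ _ hP)
      rw [hPr] at h2
      have h3 : N * (d (n • L)).toNat = N * (d L).toNat * n := by
        have h4 : (d (n • L)).toNat = (d L).toNat * n := by
          rw [map_nsmul, nsmul_eq_mul]
          have h5 : ((n : ℤ) * d L) = (((d L).toNat * n : ℕ) : ℤ) := by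
            rw [Nat.cast_mul, Int.toNat_of_nonneg hdL.le]; ring
          rw [h5]
          exact Int.toNat_natCast _
        rw [h4]; ring
      rw [h3] at h2
      exact h2
    have hψprod : ∀ (a : A) (e : J ⊕ K → ℕ), sr.ι a = ∏ v, xv pr v ^ e v →
        ψ a = ∏ v, φ (xv pr v) ^ e v := by
      intro a e h
      rw [hψ, AlgHom.comp_apply, h, map_prod]
      exact Finset.prod_congr rfl fun v _ => map_pow _ _ _
    have hq : ∀ q : Proj lineGr, ∃ v, ψ (hv v) ∉ q.asHomogeneousIdeal := by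
      intro q
      by_cases h : ∃ v, φ (xv pr v) ∈ q.asHomogeneousIdeal
      · obtain ⟨v, hvq⟩ := h
        refine ⟨v, ?_⟩
        rw [hψprod _ _ (hvι v)]
        refine prod_notMem q.asHomogeneousIdeal.toIdeal q.isPrime _ _ fun v' hv' => ?_
        refine hφq q.asHomogeneousIdeal.toIdeal q.isPrime (hP1.2 q) v v' ?_ hvq
        rintro rfl
        exact hv' (he0 _)
      · push Not at h
        refine ⟨v₀, ?_⟩
        rw [hψprod _ _ (hvι v₀)]
        exact prod_notMem q.asHomogeneousIdeal.toIdeal q.isPrime _ _ fun v' _ => h v'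
    have hdeg : 0 < N * (d L).toNat := Nat.mul_pos hN (by omega)
    obtain ⟨f, hfs, hf⟩ := hPMAP 𝒜 lineGr ψ (N * (d L).toNat) hdeg hψgr (by
      intro q
      obtain ⟨v, hvq⟩ := hq q
      exact ⟨nn v, hnn v, hv v, hvmem v, hvq⟩)
    obtain ⟨q0, hq0⟩ := hP1.1 ![0, 1] (by
      intro h; have := congrFun h 1; simp at this)
    obtain ⟨q1, hq1⟩ := hP1.1 ![1, 0] (by
      intro h; have := congrFun h 0; simp at this)
    have hfx : f q0 = x := by
      apply Pool.TVar.helper73.point_ext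
      intro n a ha
      rw [hf q0 n a ha, hq0 _ _ (hψgr n a ha), hex n a ha]
      have : MvPolynomial.eval ![0, 1] (ψ a) = ex (sr.ι a) := by
        have := algHom_ext_of pr ((MvPolynomial.aeval ![(0 : ℂ), 1]).comp φ) ex (fun v => by
          rw [AlgHom.comp_apply, Pool.TVar.helper73.aev]
          have h1 := hφ1 v 0
          rw [← (hτ v).2.2, Polynomial.coeff_zero_eq_eval_zero]
          exact h1) (sr.ι a)
        rw [← this]
        change _ = MvPolynomial.aeval ![(0 : ℂ), 1] (φ (sr.ι a))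
        rw [Pool.TVar.helper73.aev]
        rfl
      rw [this]
    have hfy : f q1 = y := by
      apply Pool.TVar.helper73.point_ext
      intro n a ha
      rw [hf q1 n a ha, hq1 _ _ (hψgr n a ha), hey n a ha]
      have : MvPolynomial.eval ![1, 0] (ψ a) = ey (sr.ι a) := by
        have := algHom_ext_of pr ((MvPolynomial.aeval ![(1 : ℂ), 0]).comp φ) ey (fun v => by
          rw [AlgHom.comp_apply, Pool.TVar.helper73.aev]
          have h1 := hφ0 v 1
          simp only [one_pow, mul_one] at h1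
          exact h1) (sr.ι a)
        rw [← this]
        change _ = MvPolynomial.aeval ![(1 : ℂ), 0] (φ (sr.ι a))
        rw [Pool.TVar.helper73.aev]
        rfl
      rw [this]
    refine ⟨f, hfs, ?_, ?_, ⟨q0, hfx⟩, ⟨q1, hfy⟩⟩
    · intro q
      obtain ⟨v, hvq⟩ := hq q
      refine hsm (f q) v fun h => hvq ?_
      exact (hf q _ _ (hvmem v)).mp h
    · have hdeg' : (τ v₀).degree ≠ 0 := by
        intro h
        have h1 := Polynomial.natDegree_eq_of_degree_eq_some h
        rw [(hτ v₀).1] at h1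
        exact (Nat.mul_pos hN (Pool.TVar.helper73.wt_pos D' v₀)).ne' h1
      obtain ⟨t, ht⟩ := IsAlgClosed.exists_root (τ v₀) hdeg'
      obtain ⟨qt, hqt⟩ := hP1.1 ![t, 1] (by
        intro h; have := congrFun h 1; simp at this)
      refine ⟨qt, q0, ?_⟩
      intro heq
      have h1 : g ∈ (f qt).asHomogeneousIdeal := by
        rw [hf qt _ g hgmem, hqt _ _ (hψgr _ _ hgmem), hψprod _ _ hgι, map_prod,
          Finset.prod_eq_zero_iff]
        refine ⟨v₀, Finset.mem_univ _, ?_⟩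
        rw [map_pow]
        have h2 : MvPolynomial.eval ![t, 1] (φ (xv pr v₀)) = 0 := by
          have h3 := hφ1 v₀ t
          rw [ht.eq_zero] at h3
          exact h3
        rw [h2, zero_pow (hegpos v₀).ne']
      rw [heq, hfx] at h1
      exact hx h1

end

end Pool.TVar.MG
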