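import Pool.Agent.Work.MP_dcf6a6_mg.Desc

/-!
# `(A_h)_0` is a finitely generated algebra
-/

open CategoryTheory AlgebraicGeometry

namespace Pool.TVar.MG

noncomputable section

variable {H R : Type} [AddCommGroup H] [DecidableEq H] [CommRing R] [Algebra ℂ R]
  {ℛ : H → Submodule ℂ R} [GradedAlgebra ℛ] {L : H}
  {A : Type} [CommRing A] [Algebra ℂ A] {𝒜 : ℕ → Submodule ℂ A} [GradedAlgebra 𝒜]

/-- `kap` is a homomorphism of `ℂ`-algebras -/
theorem kap_strAway (sr : SectionRing ℛ L A 𝒜) (h : A) (c : ℂ) :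
    kap sr h (strAway 𝒜 h c) = algebraMap ℂ (Localization.Away (sr.ι h)) c := by
  have h1 : algebraMap (HomogeneousLocalization.Away 𝒜 h) (Localization.Away h)
      (strAway 𝒜 h c) = algebraMap A (Localization.Away h) (algebraMap ℂ A c) := by
    change (HomogeneousLocalization.mk _).val = _
    rw [HomogeneousLocalization.val_mk]
    exact Localization.mk_one_eq_algebraMap _
  unfold kap
  rw [RingHom.comp_apply, h1, lam_algebraMap, AlgHom.commutes,
    IsScalarTower.algebraMap_apply ℂ R (Localization.Away (sr.ι h))]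

theorem finiteType_zero (sr : SectionRing ℛ L A 𝒜) {h : A} {n : ℕ} (hh : h ∈ 𝒜 n)
    {V : Type} [Finite V] (π : MvPolynomial V ℂ →ₐ[ℂ] R) (hπ : Function.Surjective π)
    (deg : V → H) (hdeg : ∀ v, π (MvPolynomial.X v) ∈ ℛ (deg v))
    {F : Type} [AddCommGroup F] [Module.Finite ℤ F]
    (δ : F →+ H) (hδ : Function.Surjective δ)
    (U : F → Localization.Away (sr.ι h)) (hU0 : U 0 = 1) (hUadd : ∀ e e', U (e + e') = U e * U e')
    (hU : ∀ e, HasDeg ℛ L n (sr.ι h) (U e) (δ e)) :
    (strAway 𝒜 h).FiniteType := by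
  classical
  let _ : Algebra ℂ (HomogeneousLocalization.Away 𝒜 h) := (strAway 𝒜 h).toAlgebra
  change Algebra.FiniteType ℂ (HomogeneousLocalization.Away 𝒜 h)
  have hinj := kap_injective sr h
  set a : R →+* Localization.Away (sr.ι h) := algebraMap R _ with ha
  have hahu : IsUnit (a (sr.ι h)) := IsLocalization.Away.algebraMap_isUnit (sr.ι h)
  have hUinv : ∀ x, U x * U (-x) = 1 := fun x => by rw [← hUadd, add_neg_cancel, hU0]
  -- the group `Λ` of degree zero and its units
  let Λ : Submodule ℤ F := LinearMap.ker δ.toIntLinearMap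
  have hΛ : ∀ l : Λ, δ (l : F) = 0 := fun l => l.2
  have hz : ∀ l : Λ, ∃ z, kap sr h z = U l := by
    intro l
    apply exists_kap sr hh
    have := hU l
    rwa [hΛ l] at this
  choose z hz using hz
  have hz0 : z 0 = 1 := hinj (by rw [hz, map_one]; exact hU0)
  have hzadd : ∀ l l', z (l + l') = z l * z l' := fun l l' => hinj (by
    rw [hz, map_mul, hz, hz]; exact hUadd _ _)
  -- the Reynolds operator
  let ω : Λ.toAddSubgroup → HomogeneousLocalization.Away 𝒜 h := fun l => z l
  obtain ⟨p, hp, hp1, hpm⟩ := exists_p Λ.toAddSubgroup ω hz0 hzadd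
  obtain ⟨G, hG, hGU⟩ := exists_ext sr hh δ hδ U hU0 hUadd hU
    (algebraMap (HomogeneousLocalization.Away 𝒜 h) (BAlg Λ.toAddSubgroup ω))
    (tw Λ.toAddSubgroup ω) (tw_zero _ _) (tw_add _ _)
    (by
      intro e he t ht
      have h1 : t = z ⟨e, he⟩ := hinj (by rw [ht, hz])
      rw [h1]
      exact (tw_mem Λ.toAddSubgroup ω ⟨e, he⟩).symm)
  let P : Localization.Away (sr.ι h) →+ HomogeneousLocalization.Away 𝒜 h :=
    p.comp G.toAddMonoidHom
  have hPmul : ∀ t s, P (kap sr h t * s) = t * P s := by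
    intro t s
    change p (G (kap sr h t * s)) = t * p (G s)
    rw [map_mul, hG, hp]
  have hP1 : P 1 = 1 := by
    change p (G 1) = 1
    rw [map_one, hp1]
  have hPk : ∀ t, P (kap sr h t) = t := fun t => by
    have := hPmul t 1
    rwa [mul_one, hP1, mul_one] at this
  have hPU : ∀ e, P (U e) = wgt Λ.toAddSubgroup ω e := by
    intro e
    change p (G (U e)) = _
    rw [hGU]
    unfold tw
    rw [hpm, p0_single, one_mul]
  -- generators
  choose e he using hδ
  have hav : ∀ v, ∃ t, kap sr h t = a (π (MvPolynomial.X v)) * U (-e (deg v)) := by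
    intro v
    apply exists_kap sr hh
    have h1 := hasDeg_mul (hasDeg_of_mem (L := L) (n := n) (g := sr.ι h) (hdeg v))
      (hU (-e (deg v)))
    rwa [map_neg, he, add_neg_cancel] at h1
  choose av hav using hav
  obtain ⟨w, hw⟩ := hahu.exists_right_inv
  obtain ⟨b, hb⟩ : ∃ t, kap sr h t = w * U (e (n • L)) := by
    apply exists_kap sr hh
    have hwdeg : HasDeg ℛ L n (sr.ι h) w (-(n • L)) := by
      refine ⟨1, 1, ?_, ?_⟩
      · rw [one_smul, neg_add_cancel]; exact SetLike.GradedOne.one_mem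
      · rw [pow_one, map_one, mul_comm]; exact hw
    have := hasDeg_mul hwdeg (hU (e (n • L)))
    rwa [he, neg_add_cancel] at this
  obtain ⟨S, hS⟩ : ∃ S : Finset Λ, Submodule.span ℤ (S : Set Λ) = ⊤ :=
    (Module.Finite.fg_top (R := ℤ) (M := Λ))
  let gens : Set (HomogeneousLocalization.Away 𝒜 h) :=
    Set.range av ∪ {b} ∪ (z '' (S : Set Λ)) ∪ ((fun l => z (-l)) '' (S : Set Λ))
  have hgens : gens.Finite := by
    refine Set.Finite.union (Set.Finite.union (Set.Finite.union (Set.finite_range _)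
      (Set.finite_singleton _)) ?_) ?_
    · exact S.finite_toSet.image _
    · exact S.finite_toSet.image _
  set A' := Algebra.adjoin ℂ gens with hA'
  have hsub : gens ⊆ A' := Algebra.subset_adjoin
  have hzA : ∀ l : Λ, z l ∈ A' ∧ z (-l) ∈ A' := by
    intro l
    have hl : l ∈ Submodule.span ℤ (S : Set Λ) := by rw [hS]; trivial
    have hl' : l ∈ AddSubgroup.closure (S : Set Λ) := by
      rw [← Submodule.span_int_eq_addSubgroupClosure]
      exact hl
    clear hl
    induction hl' using AddSubgroup.closure_induction with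
    | mem x hx =>
      exact ⟨hsub (Or.inl (Or.inr ⟨x, hx, rfl⟩)), hsub (Or.inr ⟨x, hx, rfl⟩)⟩
    | zero =>
      rw [neg_zero, hz0]
      exact ⟨A'.one_mem, A'.one_mem⟩
    | add x y _ _ hx hy =>
      rw [neg_add, hzadd, hzadd]
      exact ⟨A'.mul_mem hx.1 hy.1, A'.mul_mem hx.2 hy.2⟩
    | neg x _ hx =>
      rw [neg_neg]
      exact ⟨hx.2, hx.1⟩
  have hPU' : ∀ x, P (U x) ∈ A' := by
    intro x
    rw [hPU]
    by_cases hx : x ∈ Λ.toAddSubgroup
    · rw [wgt_mem _ _ hx]; exact (hzA ⟨x, hx⟩).1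
    · rw [wgt_notMem _ _ hx]; exact A'.zero_mem
  -- the multiplicative set of `κ(α) U(e)`
  let W : Submonoid (Localization.Away (sr.ι h)) :=
    { carrier := {s | ∃ α ∈ A', ∃ x, s = kap sr h α * U x}
      one_mem' := ⟨1, A'.one_mem, 0, by rw [map_one, hU0, one_mul]⟩
      mul_mem' := by
        rintro _ _ ⟨α, hα, x, rfl⟩ ⟨β, hβ, y, rfl⟩
        refine ⟨α * β, A'.mul_mem hα hβ, x + y, ?_⟩
        rw [map_mul, hUadd]; ring }
  have hWP : ∀ s ∈ W, P s ∈ A' := by
    rintro _ ⟨α, hα, x, rfl⟩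
    rw [hPmul]
    exact A'.mul_mem hα (hPU' x)
  have hWX : ∀ v, a (π (MvPolynomial.X v)) ∈ W := by
    intro v
    refine ⟨av v, hsub (Or.inl (Or.inl (Or.inl ⟨v, rfl⟩))), e (deg v), ?_⟩
    rw [hav, mul_assoc, mul_comm (U (-e (deg v))), hUinv, mul_one]
  have hWw : w ∈ W := by
    refine ⟨b, hsub (Or.inl (Or.inl (Or.inr rfl))), -e (n • L), ?_⟩
    rw [hb, mul_assoc, hUinv, mul_one]
  have hWc : ∀ c : ℂ, a (π (MvPolynomial.C c)) ∈ W := by
    intro c
    refine ⟨algebraMap ℂ _ c, A'.algebraMap_mem c, 0, ?_⟩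
    have h1 : kap sr h (algebraMap ℂ (HomogeneousLocalization.Away 𝒜 h) c) =
        algebraMap ℂ (Localization.Away (sr.ι h)) c := kap_strAway sr h c
    rw [h1, hU0, mul_one, ← MvPolynomial.algebraMap_eq, AlgHom.commutes]
    exact (IsScalarTower.algebraMap_apply ℂ R (Localization.Away (sr.ι h)) c).symm
  have hall : ∀ (q : MvPolynomial V ℂ) (k : ℕ), P (a (π q) * w ^ k) ∈ A' := by
    intro q k
    induction q using MvPolynomial.induction_on' with
    | monomial m c =>
      apply hWP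
      refine W.mul_mem ?_ (W.pow_mem hWw k)
      rw [MvPolynomial.monomial_eq, map_mul, map_mul]
      refine W.mul_mem (hWc c) ?_
      rw [Finsupp.prod, map_prod, map_prod]
      refine Submonoid.prod_mem W fun v _ => ?_
      rw [map_pow, map_pow]
      exact W.pow_mem (hWX v) _
    | add q q' hq hq' =>
      rw [map_add, map_add, add_mul, map_add]
      exact A'.add_mem hq hq'
  have htop : A' = ⊤ := by
    rw [eq_top_iff]
    rintro t -
    obtain ⟨⟨r, s⟩, hrs⟩ := IsLocalization.mk'_surjective (Submonoid.powers (sr.ι h)) (kap sr h t)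
    obtain ⟨k, hk⟩ := s.2
    obtain ⟨q, rfl⟩ := hπ r
    have h1 : kap sr h t * a (sr.ι h) ^ k = a (π q) := by
      rw [← map_pow, ← hrs]
      have := IsLocalization.mk'_spec (Localization.Away (sr.ι h)) (π q) s
      rw [← this]
      congr 1
      exact congrArg a hk
    have h2 : kap sr h t = a (π q) * w ^ k := by
      rw [← h1, mul_assoc, ← mul_pow, hw, one_pow, mul_one]
    rw [← hPk t, h2]
    exact hall q k
  refine ⟨?_⟩
  rw [← htop, hA']
  exact ⟨hgens.toFinset, by rw [Set.Finite.coe_toFinset]⟩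

end

end Pool.TVar.MG
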