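import Pool.Agent.Work.MP_dcf6a6_mg.Reduce

/-!
# The grading of a quotient of a polynomial ring by a homogeneous ideal
-/

open CategoryTheory AlgebraicGeometry

namespace Pool.TVar.MG

noncomputable section

open MvPolynomial

attribute [local instance] MvPolynomial.weightedGradedAlgebra

/-- homogeneous generators give a homogeneous ideal: components of elements are elements -/
theorem component_mem_span {V I : Type} (wt : V → ℕ) (rel : I → MvPolynomial V ℂ) (δ : I → ℕ)
    (hrel : ∀ a, (rel a).IsWeightedHomogeneous wt (δ a)) (P : MvPolynomial V ℂ)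
    (hP : P ∈ Ideal.span (Set.range rel)) (n : ℕ) :
    weightedHomogeneousComponent wt n P ∈ Ideal.span (Set.range rel) := by
  have hI : (Ideal.span (Set.range rel)).IsHomogeneous
      (weightedHomogeneousSubmodule ℂ wt) := by
    apply Ideal.homogeneous_span
    rintro _ ⟨a, rfl⟩
    exact ⟨δ a, hrel a⟩
  exact weightedHomogeneousComponent_mem_of_mem ℂ wt hI hP n

variable {V I : Type} {R : Type} [CommRing R] [Algebra ℂ R]

/-- the images of the weighted homogeneous polynomials -/
def Q (wt : V → ℕ) (π : MvPolynomial V ℂ →ₐ[ℂ] R) (n : ℕ) : Submodule ℂ R :=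
  (weightedHomogeneousSubmodule ℂ wt n).map π.toLinearMap

theorem mem_Q (wt : V → ℕ) (π : MvPolynomial V ℂ →ₐ[ℂ] R) (n : ℕ) (P : MvPolynomial V ℂ)
    (hP : P.IsWeightedHomogeneous wt n) : π P ∈ Q wt π n := ⟨P, hP, rfl⟩

instance gradedMonoid_Q (wt : V → ℕ) (π : MvPolynomial V ℂ →ₐ[ℂ] R) :
    SetLike.GradedMonoid (Q wt π) where
  one_mem := ⟨1, isWeightedHomogeneous_one ℂ wt, map_one π⟩
  mul_mem := by
    rintro i j _ _ ⟨P, hP, rfl⟩ ⟨P', hP', rfl⟩
    exact ⟨P * P', IsWeightedHomogeneous.mul hP hP', map_mul π P P'⟩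

theorem isInternal_Q (wt : V → ℕ) (π : MvPolynomial V ℂ →ₐ[ℂ] R) (hs : Function.Surjective π)
    (hk : ∀ P, π P = 0 → ∀ n, π (weightedHomogeneousComponent wt n P) = 0) :
    DirectSum.IsInternal (Q wt π) := by
  rw [DirectSum.isInternal_submodule_iff_iSupIndep_and_iSup_eq_top]
  constructor
  · rw [iSupIndep_def]
    intro n
    rw [Submodule.disjoint_def]
    rintro _ ⟨P, hP, rfl⟩ hx
    have hx2 : (⨆ (j : ℕ) (_ : j ≠ n), Q wt π j) ≤
        (⨆ (j : ℕ) (_ : j ≠ n), weightedHomogeneousSubmodule ℂ wt j).map π.toLinearMap := by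
      refine iSup₂_le fun j hj => ?_
      exact Submodule.map_mono (le_iSup₂_of_le j hj le_rfl)
    obtain ⟨P', hP', hPP'⟩ := hx2 hx
    have h0 : weightedHomogeneousComponent wt n P' = 0 := by
      have h1 : (⨆ (j : ℕ) (_ : j ≠ n), weightedHomogeneousSubmodule ℂ wt j) ≤
          LinearMap.ker (weightedHomogeneousComponent wt n : MvPolynomial V ℂ →ₗ[ℂ] _) := by
        refine iSup₂_le fun j hj => ?_
        intro x hx
        exact IsWeightedHomogeneous.weightedHomogeneousComponent_ne n hx hj.symm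
      exact h1 hP'
    have h2 : π (P - P') = 0 := by
      rw [map_sub, sub_eq_zero]; exact hPP'.symm
    have h3 := hk _ h2 n
    rw [map_sub, h0, sub_zero,
      IsWeightedHomogeneous.weightedHomogeneousComponent_same hP] at h3
    exact h3
  · rw [eq_top_iff]
    rintro x -
    obtain ⟨P, rfl⟩ := hs x
    rw [← sum_weightedHomogeneousComponent wt P]
    rw [finsum_eq_sum_of_support_subset _ (s := (weightedHomogeneousComponent_finsupp (w := wt) P).toFinset)
      (by intro i hi; simpa using hi), map_sum]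
    refine Submodule.sum_mem _ fun n _ => ?_
    exact Submodule.mem_iSup_of_mem n (mem_Q wt π n _ (weightedHomogeneousComponent_isWeightedHomogeneous n P))

/-- the `ℕ`-grading -/
@[instance_reducible]
def gradedAlgebra_Q (wt : V → ℕ) (π : MvPolynomial V ℂ →ₐ[ℂ] R) (hs : Function.Surjective π)
    (hk : ∀ P, π P = 0 → ∀ n, π (weightedHomogeneousComponent wt n P) = 0) :
    GradedAlgebra (Q wt π) where
  toGradedMonoid := gradedMonoid_Q wt π
  toDecomposition := (isInternal_Q wt π hs hk).chooseDecomposition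

theorem exists_grading {J K I B : Type} [Fintype J] [Fintype K] [Fintype B]
    [DecidableEq J] [DecidableEq K] [DecidableEq I] (D : Data J K I B)
    {R : Type} [CommRing R] [Algebra ℂ R] (π : MvPolynomial (J ⊕ K) ℂ →ₐ[ℂ] R)
    (hs : Function.Surjective π) (hk : RingHom.ker π = Ideal.span (Set.range D.rel)) :
    ∃ (𝒬 : ℕ → Submodule ℂ R) (_ : GradedAlgebra 𝒬),
      ∀ n P, P.IsWeightedHomogeneous D.wt n → π P ∈ 𝒬 n := by
  refine ⟨Q D.wt π, gradedAlgebra_Q D.wt π hs ?_, fun n P hP => mem_Q _ _ _ _ hP⟩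
  intro P hP n
  have h1 : P ∈ RingHom.ker π := hP
  rw [hk] at h1
  have h2 := component_mem_span D.wt D.rel _ (rel_homogeneous D) P h1 n
  rw [← hk] at h2
  exact h2

end

end Pool.TVar.MG
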