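import Pool.Agent.Work.MP_dcf6a6_mg.Smooth
import Pool.Agent.Work.MP_dcf6a6_tv_helper73.PTS

/-!
# Closed points of `D_+(g)`, multigraded case
-/

open CategoryTheory AlgebraicGeometry

namespace Pool.TVar.MG

noncomputable section

variable {J K I B H : Type} [Fintype J] [Fintype K] [Fintype B]
    [DecidableEq J] [DecidableEq K] [DecidableEq I] [AddCommGroup H] [DecidableEq H]
    {D : CoxData J K I B H} {R : Type} [CommRing R] [Algebra ℂ R] {ℛ : H → Submodule ℂ R}
    [GradedAlgebra ℛ] {L : H} {A : Type} [CommRing A] [Algebra ℂ A] {𝒜 : ℕ → Submodule ℂ A}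
    [GradedAlgebra 𝒜]

/-- extension of characters with values in `ℂ` -/
theorem exists_char_ext {F : Type} [AddCommGroup F] (Λ : AddSubgroup F) (c : Λ → ℂ) (h0 : c 0 = 1)
    (hadd : ∀ l l', c (l + l') = c l * c l') :
    ∃ t : F → ℂ, t 0 = 1 ∧ (∀ e e', t (e + e') = t e * t e') ∧ ∀ l : Λ, t l = c l := by
  let _ : DivisibleBy (Additive ℂˣ) ℤ := divisibleByOfSMulRightSurj _ _ (by
    intro n hn u
    have hn' : 0 < n.natAbs := Int.natAbs_pos.mpr hn
    obtain ⟨w, hw⟩ := IsAlgClosed.exists_pow_nat_eq ((Additive.toMul u : ℂˣ) : ℂ) hn'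
    have hw0 : w ≠ 0 := by
      rintro rfl
      rw [zero_pow hn'.ne'] at hw
      exact (Units.ne_zero _) hw.symm
    have h1 : (n.natAbs : ℤ) • Additive.ofMul (Units.mk0 w hw0) = u := by
      rw [natCast_zsmul]
      apply Additive.toMul.injective
      apply Units.ext
      rw [toMul_nsmul, Units.val_pow_eq_pow_val]
      exact hw
    rcases Int.natAbs_eq n with h | h
    · exact ⟨Additive.ofMul (Units.mk0 w hw0), by rw [h]; exact h1⟩
    · refine ⟨-Additive.ofMul (Units.mk0 w hw0), ?_⟩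
      simp only
      rw [h, neg_smul_neg]
      exact h1)
  have hinv : ∀ l, c l * c (-l) = 1 := fun l => by rw [← hadd, add_neg_cancel, h0]
  let c' : Λ →+ Additive ℂˣ :=
    { toFun := fun l => Additive.ofMul ⟨c l, c (-l), hinv l, by rw [mul_comm, hinv]⟩
      map_zero' := by
        apply Additive.toMul.injective
        apply Units.ext
        exact h0
      map_add' := fun l l' => by
        apply Additive.toMul.injective
        apply Units.ext
        exact hadd l l' }
  obtain ⟨t, ht⟩ := (Module.Baer.of_divisible (Additive ℂˣ)).extension_property_addMonoidHom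
    Λ.subtype Subtype.val_injective c'
  refine ⟨fun e => ((Additive.toMul (t e) : ℂˣ) : ℂ), ?_, ?_, ?_⟩
  · simp
  · intro e e'
    simp
  · intro l
    have h1 := DFunLike.congr_fun ht l
    exact congrArg (fun u => ((Additive.toMul u : ℂˣ) : ℂ)) h1

theorem exists_point (pr : D.Pres R ℛ) (sr : SectionRing ℛ L A 𝒜) (v₀ : J ⊕ K)
    {m : ℕ} (hm : 0 < m) {g : A} (hg : g ∈ 𝒜 m) (ex : J ⊕ K → ℕ)
    (hpos : ∀ v', v' ≠ v₀ → 0 < ex v') (hsum : ∑ v', ex v' • D.deg v' = m • L)
    (hgι : sr.ι g = ∏ v', xv pr v' ^ ex v')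
    (x : Proj 𝒜) (hx : x ∈ Proj.basicOpen 𝒜 g) (hxc : IsClosed ({x} : Set (Proj 𝒜))) :
    ∃ e : R →ₐ[ℂ] ℂ, e (sr.ι g) ≠ 0 ∧
      ∀ n, ∀ a ∈ 𝒜 n, a ∈ x.asHomogeneousIdeal ↔ e (sr.ι a) = 0 := by
  classical
  obtain ⟨δ, U, hδ, hU0, hUadd, hU⟩ := exists_units_mono pr v₀ ex hpos hsum hgι
  have hinj := kap_injective sr g
  have hft := finiteType_zero sr hg pr.π pr.surj D.deg pr.graded δ hδ U hU0 hUadd hU
  let _ : Algebra ℂ (HomogeneousLocalization.Away 𝒜 g) := (strAway 𝒜 g).toAlgebra
  have hfR : Algebra.FiniteType ℂ (HomogeneousLocalization.Away 𝒜 g) := hft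
  have hrange : x ∈ (Proj.awayι 𝒜 g hg hm).opensRange := by
    rw [Proj.opensRange_awayι]; exact hx
  obtain ⟨p, hp⟩ := hrange
  have hpc : IsClosed ({p} : Set (PrimeSpectrum (HomogeneousLocalization.Away 𝒜 g))) := by
    have h1 : IsClosed ((Proj.awayι 𝒜 g hg hm) ⁻¹' {x}) :=
      hxc.preimage (Proj.awayι 𝒜 g hg hm).continuous
    have h2 : (Proj.awayι 𝒜 g hg hm) ⁻¹' {x} = {p} := by
      ext q
      simp only [Set.mem_preimage, Set.mem_singleton_iff]
      constructor
      · intro h
        exact (Proj.awayι 𝒜 g hg hm).isOpenEmbedding.injective (h.trans hp.symm)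
      · rintro rfl; exact hp
    rw [h2] at h1
    exact h1
  have hmax : p.asIdeal.IsMaximal := (PrimeSpectrum.isClosed_singleton_iff_isMaximal p).mp hpc
  obtain ⟨χ, hχ⟩ := Pool.TVar.helper73.exists_char p.asIdeal hmax
  -- extension of `χ` to `R_g`
  have hz : ∀ l : δ.ker, ∃ z, kap sr g z = U l := by
    intro l
    apply exists_kap sr hg
    have := hU l
    rwa [l.2] at this
  choose z hz using hz
  have hz0 : z 0 = 1 := hinj (by rw [hz, map_one]; exact hU0)
  have hzadd : ∀ l l', z (l + l') = z l * z l' := fun l l' => hinj (by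
    rw [hz, map_mul, hz, hz]; exact hUadd _ _)
  obtain ⟨t, ht0, htadd, htl⟩ := exists_char_ext δ.ker (fun l => χ (z l))
    (by simp only [hz0, map_one]) (fun l l' => by simp only [hzadd, map_mul])
  obtain ⟨G, hG, -⟩ := exists_ext sr hg δ hδ U hU0 hUadd hU χ.toRingHom t ht0 htadd (by
    intro e he w hw
    have h1 : w = z ⟨e, he⟩ := hinj (by rw [hw, hz])
    rw [h1]
    exact (htl ⟨e, he⟩).symm)
  let e : R →ₐ[ℂ] ℂ :=
    { G.comp (algebraMap R (Localization.Away (sr.ι g))) with
      commutes' := fun c => by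
        change G (algebraMap R (Localization.Away (sr.ι g)) (algebraMap ℂ R c)) = c
        rw [← IsScalarTower.algebraMap_apply ℂ R (Localization.Away (sr.ι g)), ← kap_strAway, hG]
        exact χ.commutes c }
  have he : ∀ a, e a = G (algebraMap R (Localization.Away (sr.ι g)) a) := fun a => rfl
  have heg : e (sr.ι g) ≠ 0 := by
    rw [he]; exact ((IsLocalization.Away.algebraMap_isUnit (sr.ι g)).map G).ne_zero
  have key : ∀ n, 0 < n → ∀ a ∈ 𝒜 n, a ∈ x.asHomogeneousIdeal ↔ e (sr.ι a) = 0 := by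
    intro n hn a ha
    have h1 : x ∈ Proj.basicOpen 𝒜 a ↔
        p ∈ PrimeSpectrum.basicOpen (HomogeneousLocalization.Away.isLocalizationElem hg ha) := by
      rw [← Proj.awayι_preimage_basicOpen 𝒜 hg hm ha hn, ← hp]
      rfl
    rw [Proj.mem_basicOpen] at h1
    have h2 : p ∈ PrimeSpectrum.basicOpen (HomogeneousLocalization.Away.isLocalizationElem hg ha) ↔
        HomogeneousLocalization.Away.isLocalizationElem hg ha ∉ p.asIdeal := Iff.rfl
    rw [h2, not_iff_not, ← hχ] at h1
    rw [h1, he]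
    have h3 : kap sr g (HomogeneousLocalization.Away.isLocalizationElem hg ha) *
        algebraMap R (Localization.Away (sr.ι g)) (sr.ι (g ^ n)) =
          algebraMap R (Localization.Away (sr.ι g)) (sr.ι (a ^ m)) := by
      exact kap_mk sr g _
    have h5 := congrArg G h3
    rw [map_mul, hG, map_pow, map_pow, map_pow, map_pow, map_pow, map_pow] at h5
    have h5 : χ (HomogeneousLocalization.Away.isLocalizationElem hg ha) *
        G (algebraMap R (Localization.Away (sr.ι g)) (sr.ι g)) ^ n =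
          G (algebraMap R (Localization.Away (sr.ι g)) (sr.ι a)) ^ m := h5
    have h6 : G (algebraMap R (Localization.Away (sr.ι g)) (sr.ι g)) ^ n ≠ 0 :=
      pow_ne_zero _ heg
    constructor
    · intro h
      rw [h, zero_mul] at h5
      exact pow_eq_zero_iff hm.ne' |>.mp h5.symm
    · intro h
      rw [h, zero_pow hm.ne'] at h5
      exact (mul_eq_zero.mp h5).resolve_right h6
  refine ⟨e, heg, ?_⟩
  intro n a ha
  rcases Nat.eq_zero_or_pos n with rfl | hn
  · have h1 : a * g ∈ 𝒜 m := by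
      have := SetLike.mul_mem_graded ha hg
      simpa using this
    have h2 := key m hm (a * g) h1
    rw [map_mul, map_mul] at h2
    constructor
    · intro h
      have h3 := h2.mp (x.asHomogeneousIdeal.toIdeal.mul_mem_right g h)
      exact (mul_eq_zero.mp h3).resolve_right heg
    · intro h
      rw [h, zero_mul] at h2
      have h3 := h2.mpr rfl
      exact (x.isPrime.mem_or_mem h3).resolve_right hx
  · exact key n hn a ha

end

end Pool.TVar.MG
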