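import Pool.Agent.Work.MP_dcf6a6_mg.Defs

/-!
# Reduction of the multigraded data to the data of `MP_dcf6a6_tv`
-/

open CategoryTheory AlgebraicGeometry

namespace Pool.TVar.MG

noncomputable section

/-- integrality of weights under a homomorphism to `ℤ` -/
theorem weight_cast {V H : Type} [AddCommGroup H] (deg : V → H) (d : H →+ ℤ)
    (hd : ∀ v, 0 < d (deg v)) (n : V →₀ ℕ) :
    ((Finsupp.weight (fun v => (d (deg v)).toNat) n : ℕ) : ℤ) = d (Finsupp.weight deg n) := by
  rw [Finsupp.weight_apply, Finsupp.weight_apply, Finsupp.sum, Finsupp.sum, map_sum, Nat.cast_sum]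
  refine Finset.sum_congr rfl fun v _ => ?_
  rw [map_nsmul, smul_eq_mul, Nat.cast_mul, Int.toNat_of_nonneg (hd v).le]
  simp

section

variable {J K I B H : Type} [Fintype J] [Fintype K] [Fintype B]
    [DecidableEq J] [DecidableEq K] [DecidableEq I] [AddCommGroup H]

theorem exists_primitive (D : CoxData J K I B H) (v₀ : J ⊕ K) :
    ∃ d : H →+ ℤ, (∀ v, 0 < d (D.deg v)) ∧ Function.Surjective d := by
  obtain ⟨d0, hd0⟩ := D.pointed
  obtain ⟨c, hc⟩ := Int.subgroup_cyclic d0.range
  have hdvd : ∀ h, c ∣ d0 h := by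
    intro h
    have h1 : d0 h ∈ AddSubgroup.closure ({c} : Set ℤ) := by
      rw [← hc]; exact ⟨h, rfl⟩
    rw [← AddSubgroup.zmultiples_eq_closure] at h1
    exact Int.mem_zmultiples_iff.mp h1
  have hc0 : c ≠ 0 := by
    rintro rfl
    have := hdvd (D.deg v₀)
    rw [zero_dvd_iff] at this
    exact (hd0 v₀).ne' this
  have hcr : c ∈ d0.range := by
    rw [hc]; exact AddSubgroup.subset_closure rfl
  obtain ⟨h0, hh0⟩ := hcr
  -- the sign
  obtain ⟨s, hs, hsc⟩ : ∃ s : ℤ, s * c = |c| ∧ (s = 1 ∨ s = -1) := by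
    rcases le_total 0 c with h | h
    · exact ⟨1, by rw [one_mul, abs_of_nonneg h], Or.inl rfl⟩
    · exact ⟨-1, by rw [abs_of_nonpos h]; ring, Or.inr rfl⟩
  have habs : 0 < |c| := abs_pos.mpr hc0
  have hdvd' : ∀ h, |c| ∣ d0 h := fun h => (abs_dvd _ _).mpr (hdvd h)
  let d : H →+ ℤ :=
    { toFun := fun h => d0 h / |c|
      map_zero' := by simp
      map_add' := fun x y => by
        rw [map_add, Int.add_ediv_of_dvd_left (hdvd' x)] }
  have hd : ∀ h, d h * |c| = d0 h := fun h => Int.ediv_mul_cancel (hdvd' h)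
  refine ⟨d, fun v => ?_, fun z => ?_⟩
  · have h1 := hd0 v
    rw [← hd] at h1
    exact (mul_pos_iff_of_pos_right habs).mp h1
  · refine ⟨(z * s) • h0, ?_⟩
    have h2 : d ((z * s) • h0) * |c| = z * |c| := by
      rw [hd, map_zsmul, hh0, smul_eq_mul, mul_assoc, hs]
    exact mul_right_cancel₀ habs.ne' h2

/-- every monomial in the support of `P_b` has positive weight -/
theorem d_p_pos (D : CoxData J K I B H) (d : H →+ ℤ) (hd : ∀ v, 0 < d (D.deg v)) (b : B) :
    0 < d (D.p b) := by
  have hne : D.P b ≠ 0 := by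
    intro h
    have h1 := D.squarefree
    have h2 : (∏ b, D.P b) = 0 := Finset.prod_eq_zero (Finset.mem_univ b) h
    rw [h2, zero_mul] at h1
    exact not_squarefree_zero h1
  obtain ⟨n, hn⟩ := MvPolynomial.ne_zero_iff.mp hne
  have hw := D.homog b hn
  have hn0 : n ≠ 0 := by
    rintro rfl
    rw [map_zero] at hw
    exact D.p_ne b hw.symm
  have h1 := weight_cast (fun k => D.deg (Sum.inr k)) d (fun k => hd (Sum.inr k)) n
  rw [hw] at h1
  rw [← h1]
  obtain ⟨k, hk⟩ := Finsupp.ne_iff.mp hn0
  rw [Finsupp.zero_apply] at hk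
  have h2 : 0 < Finsupp.weight (fun k => (d (D.deg (Sum.inr k))).toNat) n := by
    rw [Finsupp.weight_apply, Finsupp.sum]
    refine Finset.sum_pos' (fun _ _ => Nat.zero_le _) ⟨k, Finsupp.mem_support_iff.mpr hk, ?_⟩
    rw [smul_eq_mul]
    have := hd (Sum.inr k)
    exact Nat.mul_pos (Nat.pos_of_ne_zero hk) (by omega)
  exact_mod_cast h2

/-- the `ℕ`-graded data obtained from a primitive positive `d` -/
def toData (D : CoxData J K I B H) (d : H →+ ℤ) (hd : ∀ v, 0 < d (D.deg v))
    (hs : Function.Surjective d) : Data J K I B where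
  ja := D.ja
  ba := D.ba
  w j := (d (D.deg (Sum.inl j))).toNat
  u k := (d (D.deg (Sum.inr k))).toNat
  m := D.m
  p b := (d (D.p b)).toNat
  P := D.P
  ja_surj := D.ja_surj
  w_pos j := by have := hd (Sum.inl j); omega
  u_pos k := by have := hd (Sum.inr k); omega
  m_pos := D.m_pos
  p_pos b := by have := d_p_pos D d hd b; omega
  homog b := by
    intro n hn
    have h1 := weight_cast (fun k => D.deg (Sum.inr k)) d (fun k => hd (Sum.inr k)) n
    rw [D.homog b hn] at h1
    omega
  balanced a := by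
    have h1 := congrArg d (D.balanced a)
    rw [map_sum, map_sum] at h1
    have h2 : ((∑ j with D.ja j = a, (d (D.deg (Sum.inl j))).toNat : ℕ) : ℤ) =
        ∑ j with D.ja j = a, d (D.deg (Sum.inl j)) := by
      rw [Nat.cast_sum]
      exact Finset.sum_congr rfl fun j _ => Int.toNat_of_nonneg (hd _).le
    have h3 : ((∑ b with D.ba b = a, D.m b * (d (D.p b)).toNat : ℕ) : ℤ) =
        ∑ b with D.ba b = a, d (D.m b • D.p b) := by
      rw [Nat.cast_sum]
      refine Finset.sum_congr rfl fun b _ => ?_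
      rw [Nat.cast_mul, Int.toNat_of_nonneg (d_p_pos D d hd b).le, map_nsmul]
      simp
    have h4 : ((∑ j with D.ja j = a, (d (D.deg (Sum.inl j))).toNat : ℕ) : ℤ) =
        ((∑ b with D.ba b = a, D.m b * (d (D.p b)).toNat : ℕ) : ℤ) := by
      rw [h2, h3, h1]
    exact_mod_cast h4
  squarefree := D.squarefree
  wellformed v := by
    set g := (Finset.univ.erase v).gcd
      (Sum.elim (fun j => (d (D.deg (Sum.inl j))).toNat)
        (fun k => (d (D.deg (Sum.inr k))).toNat)) with hg
    have hdiv : ∀ v', v' ≠ v → (g : ℤ) ∣ d (D.deg v') := by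
      intro v' hv'
      have h1 : g ∣ Sum.elim (fun j => (d (D.deg (Sum.inl j))).toNat)
          (fun k => (d (D.deg (Sum.inr k))).toNat) v' :=
        Finset.gcd_dvd (Finset.mem_erase.mpr ⟨hv', Finset.mem_univ _⟩)
      have h2 : Sum.elim (fun j => (d (D.deg (Sum.inl j))).toNat)
          (fun k => (d (D.deg (Sum.inr k))).toNat) v' = (d (D.deg v')).toNat := by
        cases v' <;> rfl
      rw [h2] at h1
      have h3 : ((d (D.deg v')).toNat : ℤ) = d (D.deg v') := Int.toNat_of_nonneg (hd _).le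
      rw [← h3]
      exact_mod_cast h1
    obtain ⟨h, hh⟩ := hs 1
    have hmem : h ∈ AddSubgroup.closure (D.deg '' {v}ᶜ) := by rw [D.generated v]; trivial
    have hall : ∀ x ∈ AddSubgroup.closure (D.deg '' {v}ᶜ), (g : ℤ) ∣ d x := by
      intro x hx
      induction hx using AddSubgroup.closure_induction with
      | mem x hx =>
        obtain ⟨v', hv', rfl⟩ := hx
        exact hdiv v' hv'
      | zero => rw [map_zero]; exact dvd_zero _
      | add x y _ _ hx hy => rw [map_add]; exact dvd_add hx hy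
      | neg x _ hx => rw [map_neg]; exact (dvd_neg).mpr hx
    have h1 := hall h hmem
    rw [hh] at h1
    have h2 : g ∣ 1 := by exact_mod_cast h1
    exact Nat.dvd_one.mp h2

theorem toData_wt (D : CoxData J K I B H) (d : H →+ ℤ) (hd : ∀ v, 0 < d (D.deg v))
    (hs : Function.Surjective d) (v : J ⊕ K) :
    (toData D d hd hs).wt v = (d (D.deg v)).toNat := by
  cases v <;> rfl

theorem toData_rel (D : CoxData J K I B H) (d : H →+ ℤ) (hd : ∀ v, 0 < d (D.deg v))
    (hs : Function.Surjective d) : (toData D d hd hs).rel = D.rel := rfl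

end

/-! ## The `ℕ`-grading of a split ring -/

section

variable {J K I B : Type} [Fintype J] [Fintype K] [Fintype B]
    [DecidableEq J] [DecidableEq K] [DecidableEq I]

theorem rel_homogeneous (D : Data J K I B) (a : I) :
    (D.rel a).IsWeightedHomogeneous D.wt (∑ j with D.ja j = a, D.w j) := by
  unfold Data.rel
  apply MvPolynomial.IsWeightedHomogeneous.sub
  · refine MvPolynomial.IsWeightedHomogeneous.prod _ _ _ fun j _ => ?_
    exact MvPolynomial.isWeightedHomogeneous_X ℂ D.wt (Sum.inl j)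
  · rw [D.balanced a]
    refine MvPolynomial.IsWeightedHomogeneous.prod _ _ _ fun b _ => ?_
    have h1 : (MvPolynomial.rename Sum.inr (D.P b) : MvPolynomial (J ⊕ K) ℂ).IsWeightedHomogeneous
        D.wt (D.p b) := by
      intro n hn
      obtain ⟨n', hn', hc⟩ := MvPolynomial.coeff_rename_ne_zero _ _ _ hn
      rw [← hn', ← D.homog b hc, Finsupp.weight_apply, Finsupp.weight_apply,
        Finsupp.sum_mapDomain_index (h := fun i c => c • D.wt i) (fun i => zero_smul _ _)
          (fun i c c' => add_smul _ _ _)]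
      rfl
    have h2 := h1.pow (D.m b)
    rwa [smul_eq_mul] at h2

end

end

end Pool.TVar.MG
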