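import Pool.Agent.Work.MP_dcf6a6_mg.Defs

/-!
# The degree zero part of `R_h` as a retract, multigraded case
-/

open CategoryTheory AlgebraicGeometry

namespace Pool.TVar.MG

noncomputable section

variable {H R : Type} [AddCommGroup H] [DecidableEq H] [CommRing R] [Algebra ℂ R]
  {ℛ : H → Submodule ℂ R} [GradedAlgebra ℛ] {L : H}
  {A : Type} [CommRing A] [Algebra ℂ A] {𝒜 : ℕ → Submodule ℂ A} [GradedAlgebra 𝒜]

/-- the additive map `x ↦ x θ(η)` on the part of degree `η` -/
def twistAdd {S : Type} [CommRing S] (ℛ : H → Submodule ℂ R) (a : R →+* S) (θ : H → S) (η : H) :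
    ℛ η →+ S where
  toFun x := a x * θ η
  map_zero' := by simp
  map_add' x y := by simp [add_mul]

/-- the ring homomorphism `x ↦ ∑ x_η θ(η)` -/
def twist {S : Type} [CommRing S] (ℛ : H → Submodule ℂ R) [GradedAlgebra ℛ] (a : R →+* S)
    (θ : H → S) (h0 : θ 0 = 1) (hadd : ∀ i j, θ (i + j) = θ i * θ j) : R →+* S :=
  (DirectSum.toSemiring (twistAdd ℛ a θ)
    (by simp [twistAdd, SetLike.coe_gOne, h0])
    (by intro i j x y; simp [twistAdd, SetLike.coe_gMul, hadd]; ring)).comp
      (DirectSum.decomposeRingEquiv ℛ).toRingHom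

theorem twist_of_mem {S : Type} [CommRing S] (a : R →+* S) (θ : H → S) (h0 : θ 0 = 1)
    (hadd : ∀ i j, θ (i + j) = θ i * θ j) {η : H} {x : R} (hx : x ∈ ℛ η) :
    twist ℛ a θ h0 hadd x = a x * θ η := by
  unfold twist
  rw [RingHom.comp_apply]
  have : (DirectSum.decomposeRingEquiv ℛ).toRingHom x = DirectSum.of (fun i => ℛ i) η ⟨x, hx⟩ :=
    DirectSum.decompose_of_mem ℛ hx
  rw [this, DirectSum.toSemiring_of]
  rfl

theorem isUnit_ι (sr : SectionRing ℛ L A 𝒜) (h : A) :
    IsUnit (((algebraMap R (Localization.Away (sr.ι h))).comp sr.ι.toRingHom) h) :=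
  IsLocalization.Away.algebraMap_isUnit (sr.ι h)

/-- the map `A_h → R_{ι h}` -/
def lam (sr : SectionRing ℛ L A 𝒜) (h : A) :
    Localization.Away h →+* Localization.Away (sr.ι h) :=
  IsLocalization.Away.lift h (isUnit_ι sr h)

theorem lam_algebraMap (sr : SectionRing ℛ L A 𝒜) (h a : A) :
    lam sr h (algebraMap A (Localization.Away h) a) =
      algebraMap R (Localization.Away (sr.ι h)) (sr.ι a) :=
  IsLocalization.Away.lift_eq h (isUnit_ι sr h) a

theorem lam_injective (sr : SectionRing ℛ L A 𝒜) (h : A) : Function.Injective (lam sr h) := by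
  rw [injective_iff_map_eq_zero]
  intro z hz
  obtain ⟨⟨a, s⟩, rfl⟩ := IsLocalization.mk'_surjective (Submonoid.powers h) z
  have h1 : IsLocalization.mk' (Localization.Away h) a s * algebraMap A _ (s : A) =
      algebraMap A _ a := IsLocalization.mk'_spec _ _ _
  have h2 := congrArg (lam sr h) h1
  rw [map_mul, hz, zero_mul, lam_algebraMap] at h2
  have h3 := (IsLocalization.map_eq_zero_iff (Submonoid.powers (sr.ι h)) _ _).mp h2.symm
  obtain ⟨⟨_, k, rfl⟩, hk⟩ := h3
  simp only at hk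
  rw [← map_pow, ← map_mul] at hk
  have h4 : h ^ k * a = 0 := sr.inj (by rw [hk, map_zero])
  simp only
  rw [IsLocalization.mk'_eq_zero_iff]
  exact ⟨⟨h ^ k, k, rfl⟩, h4⟩

/-- the canonical map `(A_h)_0 → R_{ι h}` -/
def kap (sr : SectionRing ℛ L A 𝒜) (h : A) :
    HomogeneousLocalization.Away 𝒜 h →+* Localization.Away (sr.ι h) :=
  (lam sr h).comp (algebraMap (HomogeneousLocalization.Away 𝒜 h) (Localization.Away h))

theorem kap_injective (sr : SectionRing ℛ L A 𝒜) (h : A) : Function.Injective (kap sr h) :=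
  (lam_injective sr h).comp (HomogeneousLocalization.val_injective (Submonoid.powers h))

theorem kap_mk (sr : SectionRing ℛ L A 𝒜) (h : A)
    (c : HomogeneousLocalization.NumDenSameDeg 𝒜 (Submonoid.powers h)) :
    kap sr h (HomogeneousLocalization.mk c) * algebraMap R _ (sr.ι c.den) =
      algebraMap R _ (sr.ι c.num) := by
  have h1 : (HomogeneousLocalization.mk c : HomogeneousLocalization.Away 𝒜 h).val *
      algebraMap A _ c.den = algebraMap A _ c.num := by
    rw [HomogeneousLocalization.val_mk, Localization.mk_eq_mk']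
    exact IsLocalization.mk'_spec _ _ _
  have h2 := congrArg (lam sr h) h1
  rw [map_mul, lam_algebraMap, lam_algebraMap] at h2
  exact h2

/-- `u` is homogeneous of degree `η` in `R_{h}`, `h` of degree `n L` -/
def HasDeg (ℛ : H → Submodule ℂ R) (L : H) (n : ℕ) (g : R) (u : Localization.Away g) (η : H) :
    Prop :=
  ∃ k : ℕ, ∃ c ∈ ℛ (η + k • (n • L)), u * algebraMap R _ (g ^ k) = algebraMap R _ c

theorem mem_section (sr : SectionRing ℛ L A 𝒜) {n : ℕ} {x : R} (hx : x ∈ ℛ (n • L)) :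
    ∃ a ∈ 𝒜 n, sr.ι a = x := by
  rw [← sr.graded n] at hx
  obtain ⟨a, ha, rfl⟩ := hx
  exact ⟨a, ha, rfl⟩

theorem ι_mem (sr : SectionRing ℛ L A 𝒜) {n : ℕ} {a : A} (ha : a ∈ 𝒜 n) :
    sr.ι a ∈ ℛ (n • L) := by
  rw [← sr.graded n]
  exact ⟨a, ha, rfl⟩

theorem exists_ret (sr : SectionRing ℛ L A 𝒜) {h : A} {n : ℕ} (hh : h ∈ 𝒜 n)
    (θ : H → Localization.Away (sr.ι h)) (h0 : θ 0 = 1) (hadd : ∀ i j, θ (i + j) = θ i * θ j)
    (hθ : ∀ η, HasDeg ℛ L n (sr.ι h) (θ η) (-η)) :
    ∃ ρ : Localization.Away (sr.ι h) →+* HomogeneousLocalization.Away 𝒜 h,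
      (∀ z, ρ (kap sr h z) = z) ∧
      ∀ η, ∀ x ∈ ℛ η, kap sr h (ρ (algebraMap R _ x)) = algebraMap R _ x * θ η := by
  classical
  set a : R →+* Localization.Away (sr.ι h) := algebraMap R _ with ha
  have hahu : IsUnit (a (sr.ι h)) := IsLocalization.Away.algebraMap_isUnit (sr.ι h)
  have hinj := kap_injective sr h
  set g0 := twist ℛ a θ h0 hadd with hg0
  have hg0m : ∀ η x, x ∈ ℛ η → g0 x = a x * θ η := fun η x hx => twist_of_mem a θ h0 hadd hx
  have hpow : ∀ k, h ^ k ∈ 𝒜 (k * n) := fun k => by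
    have := SetLike.pow_mem_graded k hh
    simpa using this
  have hval : ∀ (k : ℕ) (x : R) (_ : x ∈ ℛ (k • (n • L))),
      ∃ z : HomogeneousLocalization.Away 𝒜 h, kap sr h z * a (sr.ι h ^ k) = a x := by
    intro k x hx
    rw [smul_smul] at hx
    obtain ⟨b, hb, rfl⟩ := mem_section sr hx
    refine ⟨HomogeneousLocalization.mk ⟨k * n, ⟨b, hb⟩, ⟨h ^ k, hpow k⟩, ⟨k, rfl⟩⟩, ?_⟩
    rw [← map_pow]
    exact kap_mk sr h _
  have hmem : ∀ η x, x ∈ ℛ η → ∃ z, kap sr h z = g0 x := by
    intro η x hx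
    obtain ⟨k, c, hc, hk⟩ := hθ η
    have hxc : x * c ∈ ℛ (k • (n • L)) := by
      have := SetLike.mul_mem_graded hx hc
      rwa [add_neg_cancel_left] at this
    obtain ⟨z, hz⟩ := hval k _ hxc
    refine ⟨z, ?_⟩
    have hu : IsUnit (a (sr.ι h ^ k)) := by rw [map_pow]; exact hahu.pow _
    apply hu.mul_right_cancel
    rw [hz, hg0m η x hx, map_mul, mul_assoc, hk]
  have hmem' : ∀ x, ∃ z, kap sr h z = g0 x := by
    intro x
    have hx := DirectSum.sum_support_decompose ℛ x
    choose z hz using fun η => hmem η (DirectSum.decompose ℛ x η : R) (SetLike.coe_mem _)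
    refine ⟨∑ η ∈ (DirectSum.decompose ℛ x).support, z η, ?_⟩
    rw [map_sum]
    conv_rhs => rw [← hx]
    rw [map_sum]
    exact Finset.sum_congr rfl (fun η _ => hz η)
  choose g2 hg2 using hmem'
  let G : R →+* HomogeneousLocalization.Away 𝒜 h :=
    { toFun := g2
      map_one' := hinj (by rw [hg2, map_one, map_one])
      map_mul' := fun x y => hinj (by rw [hg2, map_mul, map_mul, hg2, hg2])
      map_zero' := hinj (by rw [hg2, map_zero, map_zero])
      map_add' := fun x y => hinj (by rw [hg2, map_add, map_add, hg2, hg2]) }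
  have hG : ∀ x, kap sr h (G x) = g0 x := hg2
  have hnL : sr.ι h ∈ ℛ (n • L) := ι_mem sr hh
  have hθinv : ∀ η, θ η * θ (-η) = 1 := by
    intro η; rw [← hadd, add_neg_cancel, h0]
  have hGu : IsUnit (G (sr.ι h)) := by
    obtain ⟨k, c, hc, hk⟩ := hθ (-(n • L))
    have hc' : c ∈ ℛ ((k + 1) • (n • L)) := by
      rw [neg_neg] at hc
      rw [add_smul, one_smul, add_comm]
      exact hc
    obtain ⟨z, hz⟩ := hval (k + 1) _ hc'
    refine IsUnit.of_mul_eq_one z (hinj ?_)
    rw [map_mul, hG, map_one, hg0m _ _ hnL]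
    have hu : IsUnit (a (sr.ι h ^ k)) := by rw [map_pow]; exact hahu.pow _
    apply hu.mul_right_cancel
    rw [one_mul]
    have h1 : a (sr.ι h ^ (k + 1)) = a (sr.ι h ^ k) * a (sr.ι h) := by rw [pow_succ, map_mul]
    rw [h1, ← hk] at hz
    calc a (sr.ι h) * θ (n • L) * kap sr h z * a (sr.ι h ^ k)
        = θ (n • L) * (kap sr h z * (a (sr.ι h ^ k) * a (sr.ι h))) := by ring
      _ = θ (n • L) * (θ (-(n • L)) * a (sr.ι h ^ k)) := by rw [hz]
      _ = (θ (n • L) * θ (-(n • L))) * a (sr.ι h ^ k) := by ring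
      _ = a (sr.ι h ^ k) := by rw [hθinv, one_mul]
  refine ⟨IsLocalization.Away.lift (sr.ι h) hGu, ?_, ?_⟩
  · intro z
    apply hinj
    obtain ⟨c, rfl⟩ := HomogeneousLocalization.mk_surjective z
    have h1 := kap_mk sr h c
    have h2 := congrArg (IsLocalization.Away.lift (S := Localization.Away (sr.ι h)) (sr.ι h) hGu) h1
    rw [map_mul, IsLocalization.Away.lift_eq, IsLocalization.Away.lift_eq] at h2
    have h3 := congrArg (kap sr h) h2
    rw [map_mul, hG, hG, hg0m _ _ (ι_mem sr c.den.2), hg0m _ _ (ι_mem sr c.num.2), ha, ← h1] at h3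
    have hdu : IsUnit (a (sr.ι c.den)) := by
      obtain ⟨k, hk⟩ := c.den_mem
      have : a (sr.ι c.den) = a (sr.ι h) ^ k := by
        rw [← map_pow, ← map_pow]
        exact congrArg (fun t => a (sr.ι t)) hk.symm
      rw [this]; exact hahu.pow _
    have hθu : IsUnit (θ (c.deg • L)) := IsUnit.of_mul_eq_one _ (hθinv _)
    have h4 : IsUnit (a (sr.ι c.den) * θ (c.deg • L)) := hdu.mul hθu
    apply h4.mul_right_cancel
    rw [h3]
    ring
  · intro η x hx
    rw [IsLocalization.Away.lift_eq, hG, hg0m η x hx]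

/-! ## Existence of `θ` for a free grading group -/

theorem hasDeg_one (n : ℕ) (g : R) : HasDeg ℛ L n g 1 0 := by
  refine ⟨0, 1, ?_, by simp⟩
  rw [zero_smul, add_zero]
  exact SetLike.GradedOne.one_mem

theorem hasDeg_mul {n : ℕ} {g : R} {u u' : Localization.Away g} {η η' : H}
    (hu : HasDeg ℛ L n g u η) (hu' : HasDeg ℛ L n g u' η') :
    HasDeg ℛ L n g (u * u') (η + η') := by
  obtain ⟨k, c, hc, hk⟩ := hu
  obtain ⟨k', c', hc', hk'⟩ := hu'
  refine ⟨k + k', c * c', ?_, ?_⟩
  · have := SetLike.mul_mem_graded hc hc'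
    have e : η + k • (n • L) + (η' + k' • (n • L)) = η + η' + (k + k') • (n • L) := by
      rw [add_smul]; abel
    rwa [e] at this
  · rw [map_mul, ← hk, ← hk', pow_add, map_mul]
    ring

/-- a homomorphism section of the degree map, for a free grading group -/
theorem exists_theta [Module.Free ℤ H] {n : ℕ} {g : R} {V : Type} (deg : V → H)
    (x : V → (Localization.Away g)ˣ) (hgen : AddSubgroup.closure (Set.range deg) = ⊤)
    (hx : ∀ v, HasDeg ℛ L n g (x v : Localization.Away g) (deg v))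
    (hx' : ∀ v, HasDeg ℛ L n g ((x v)⁻¹ : (Localization.Away g)ˣ) (-deg v)) :
    ∃ θ : H → Localization.Away g, θ 0 = 1 ∧ (∀ i j, θ (i + j) = θ i * θ j) ∧
      ∀ η, HasDeg ℛ L n g (θ η) (-η) := by
  -- the group of pairs (degree, homogeneous unit)
  let S : AddSubgroup (H × Additive (Localization.Away g)ˣ) :=
    { carrier := {p | HasDeg ℛ L n g ((Additive.toMul p.2 : (Localization.Away g)ˣ) :
          Localization.Away g) (-p.1) ∧
        HasDeg ℛ L n g (((Additive.toMul p.2)⁻¹ : (Localization.Away g)ˣ) :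
          Localization.Away g) p.1}
      zero_mem' := by
        constructor
        · simpa using hasDeg_one (ℛ := ℛ) (L := L) n g
        · simpa using hasDeg_one (ℛ := ℛ) (L := L) n g
      add_mem' := by
        rintro ⟨a, u⟩ ⟨b, w⟩ ⟨h1, h2⟩ ⟨h3, h4⟩
        constructor
        · have := hasDeg_mul h1 h3
          simpa [neg_add_rev, add_comm] using this
        · have := hasDeg_mul h2 h4
          simpa [mul_comm] using this
      neg_mem' := by
        rintro ⟨a, u⟩ ⟨h1, h2⟩
        constructor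
        · simpa using h2
        · simpa using h1 }
  let pr : S →+ H := (AddMonoidHom.fst H _).comp S.subtype
  have hsurj : Function.Surjective pr := by
    rw [← AddMonoidHom.range_eq_top, eq_top_iff, ← hgen, AddSubgroup.closure_le]
    rintro _ ⟨v, rfl⟩
    refine ⟨⟨(deg v, Additive.ofMul (x v)⁻¹), ?_, ?_⟩, rfl⟩
    · exact hx' v
    · simpa using hx v
  obtain ⟨s, hs⟩ := Module.projective_lifting_property pr.toIntLinearMap
    (LinearMap.id : H →ₗ[ℤ] H) hsurj
  have hs' : ∀ η, pr (s η) = η := fun η => DFunLike.congr_fun hs η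
  refine ⟨fun η => ((Additive.toMul (s η : H × Additive (Localization.Away g)ˣ).2 :
    (Localization.Away g)ˣ) : Localization.Away g), ?_, ?_, ?_⟩
  · simp
  · intro i j
    simp
  · intro η
    have h1 := (s η).2.1
    have h2 : (s η : H × Additive (Localization.Away g)ˣ).1 = η := hs' η
    rw [h2] at h1
    exact h1

end

end Pool.TVar.MG
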