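import Pool.Agent.Work.MP_dcf6a6_mg.FinType
import Pool.Agent.Work.MP_dcf6a6_mg.Grade
import Pool.Agent.Work.MP_dcf6a6_tv_helper68.FS
import Pool.Agent.Work.MP_dcf6a6_tv_helper68.SMO

/-!
# Smoothness of the coordinate ring of `D_+(h)`, multigraded case
-/

open CategoryTheory AlgebraicGeometry

namespace Pool.TVar.MG

noncomputable section

section

open MvPolynomial Pool.TVar.helper68

/-- Formal smoothness of the localisation at a monomial in all the variables except possibly `v`
(adapted from the block FS of helper68). -/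
theorem fs_gen {J K I B : Type} [Fintype J] [Fintype K] [Fintype B] [DecidableEq J]
    [DecidableEq K] [DecidableEq I] (D : Data J K I B) {A : Type} [CommRing A] [Algebra ℂ A]
    (π : MvPolynomial (J ⊕ K) ℂ →ₐ[ℂ] A) (hsurj : Function.Surjective π)
    (hkerπ : RingHom.ker π = Ideal.span (Set.range D.rel)) (v : J ⊕ K) (h : A)
    (hdvd : ∀ v', v' ≠ v → π (X v') ∣ h) (e : J ⊕ K → ℕ) (hev : e v = 0)
    (hh : h = ∏ v', π (X v') ^ e v') :
    Algebra.FormallySmooth ℂ (Localization.Away h) := by
  refine .of_comp_surjective fun Q _ _ 𝔞 h𝔞 f ↦ ?_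
  have hnil : IsNilpotent 𝔞 := ⟨2, h𝔞⟩
  obtain ⟨s, hs1, hs2⟩ := sel D.ja D.ja_surj v
  -- the images of the variables in `Q / 𝔞`
  set F : J ⊕ K → Q ⧸ 𝔞 := fun v' => f (algebraMap A (Localization.Away h) (π (X v'))) with hF
  have hFu : ∀ v', v' ≠ v → IsUnit (F v') := by
    intro v' hv'
    have h1 : π (X v') ∣ h := hdvd v' hv'
    have h2 : IsUnit (algebraMap A (Localization.Away h) h) :=
      IsLocalization.map_units (Localization.Away h) (⟨h, Submonoid.mem_powers h⟩ : Submonoid.powers h)
    exact (isUnit_of_dvd_unit (map_dvd (algebraMap A (Localization.Away h)) h1) h2).map f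
  have hFa : ∀ p : MvPolynomial (J ⊕ K) ℂ,
      f (algebraMap A (Localization.Away h) (π p)) = aeval F p := by
    intro p
    have h1 : (f.comp (Algebra.algHom ℂ A (Localization.Away h))).comp π = aeval F := by
      apply MvPolynomial.algHom_ext
      intro i
      rw [aeval_X]
      rfl
    exact AlgHom.congr_fun h1 p
  have hrel : ∀ a, aeval F (D.rel a) = 0 := by
    intro a
    rw [← hFa]
    have h1 : π (D.rel a) = 0 := by
      rw [← RingHom.mem_ker, hkerπ]
      exact Ideal.subset_span ⟨a, rfl⟩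
    rw [h1, map_zero, map_zero]
  -- lifts
  have hx0 : ∀ v', ∃ x : Q, Ideal.Quotient.mk 𝔞 x = F v' := fun v' => Ideal.Quotient.mk_surjective _
  choose x hx using hx0
  have hxu : ∀ v', v' ≠ v → IsUnit (x v') := by
    intro v' hv'
    rw [← hnil.isUnit_quotient_mk_iff, hx]
    exact hFu v' hv'
  set R : I → Q := fun a => ∏ b with D.ba b = a, (aeval (fun k => x (Sum.inr k)) (D.P b)) ^ D.m b
    with hR
  have hprod : ∀ a, IsUnit (∏ j ∈ (Finset.univ.filter fun j => D.ja j = a).erase (s a),
      x (Sum.inl j)) := by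
    intro a
    rw [IsUnit.prod_iff]
    intro j hj
    apply hxu
    intro hv
    rw [Finset.mem_erase, Finset.mem_filter] at hj
    have := hs2 j hv.symm
    rw [hj.2.2] at this
    exact hj.1 this.symm
  choose w hw using fun a => (hprod a).exists_right_inv
  obtain ⟨y, hy⟩ : ∃ y : J ⊕ K → Q, y = Sum.elim
      (fun j => if j = s (D.ja j) then R (D.ja j) * w (D.ja j) else x (Sum.inl j))
      (fun k => x (Sum.inr k)) := ⟨_, rfl⟩
  have hy1 : ∀ k, y (Sum.inr k) = x (Sum.inr k) := fun k => by rw [hy]; rfl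
  have hy2 : ∀ a, y (Sum.inl (s a)) = R a * w a := by
    intro a
    rw [hy]
    simp only [Sum.elim_inl, hs1, if_true]
  have hy3 : ∀ a, ∀ j ∈ (Finset.univ.filter fun j => D.ja j = a).erase (s a),
      y (Sum.inl j) = x (Sum.inl j) := by
    intro a j hj
    rw [Finset.mem_erase, Finset.mem_filter] at hj
    rw [hy]
    simp only [Sum.elim_inl]
    rw [if_neg]
    rw [hj.2.2]
    exact hj.1
  have hmem : ∀ a, s a ∈ Finset.univ.filter fun j => D.ja j = a := fun a =>
    Finset.mem_filter.2 ⟨Finset.mem_univ _, hs1 a⟩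
  have hyrel : ∀ a, aeval y (D.rel a) = 0 := by
    intro a
    rw [Data.rel, map_sub, map_prod, map_prod, ← Finset.mul_prod_erase _ _ (hmem a)]
    simp only [aeval_X, map_pow, aeval_rename]
    rw [hy2, Finset.prod_congr rfl (hy3 a)]
    have h1 : (fun b => (aeval (y ∘ Sum.inr) (D.P b)) ^ D.m b) =
        fun b => (aeval (fun k => x (Sum.inr k)) (D.P b)) ^ D.m b := by
      funext b
      have : y ∘ Sum.inr = fun k => x (Sum.inr k) := funext fun k => hy1 k
      rw [this]
    rw [h1]
    have h2 := hw a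
    rw [mul_assoc, mul_comm (w a), h2, mul_one]
    exact sub_self _
  -- the images of `y`
  have hyF : ∀ v', Ideal.Quotient.mk 𝔞 (y v') = F v' := by
    have hin : ∀ k, Ideal.Quotient.mk 𝔞 (y (Sum.inr k)) = F (Sum.inr k) := fun k => by
      rw [hy1, hx]
    intro v'
    rcases v' with j | k
    · by_cases hj : j = s (D.ja j)
      · set a := D.ja j with ha
        rw [hj]
        have h1 := hrel a
        rw [Data.rel, map_sub, map_prod, map_prod, ← Finset.mul_prod_erase _ _ (hmem a)] at h1
        simp only [aeval_X, map_pow, aeval_rename] at h1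
        have h2 : IsUnit (∏ j ∈ (Finset.univ.filter fun j => D.ja j = a).erase (s a),
            F (Sum.inl j)) := by
          have := (hprod a).map (Ideal.Quotient.mk 𝔞)
          rw [map_prod] at this
          simpa only [hx] using this
        apply h2.mul_left_injective
        simp only
        rw [sub_eq_zero.1 h1, hy2, map_mul]
        have h3 := congrArg (Ideal.Quotient.mk 𝔞) (hw a)
        rw [map_mul, map_one, map_prod] at h3
        simp only [hx] at h3
        rw [mul_assoc, mul_comm (Ideal.Quotient.mk 𝔞 (w a)), h3, mul_one, hR]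
        simp only [map_prod, map_pow]
        refine Finset.prod_congr rfl fun b _ => ?_
        congr 1
        have h4 : ((Ideal.Quotient.mkₐ ℂ 𝔞).comp (aeval (fun k => x (Sum.inr k)))) =
            aeval (F ∘ Sum.inr) := by
          apply MvPolynomial.algHom_ext
          intro k
          rw [AlgHom.comp_apply, aeval_X, aeval_X]
          exact hx _
        exact AlgHom.congr_fun h4 (D.P b)
      · rw [hy3 (D.ja j) j (Finset.mem_erase.2 ⟨hj, Finset.mem_filter.2 ⟨Finset.mem_univ _, rfl⟩⟩), hx]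
    · exact hin k
  have hyu : ∀ v', v' ≠ v → IsUnit (y v') := by
    intro v' hv'
    rw [← hnil.isUnit_quotient_mk_iff, hyF]
    exact hFu v' hv'
  have hker : RingHom.ker π.toRingHom ≤ RingHom.ker (aeval y : MvPolynomial (J ⊕ K) ℂ →ₐ[ℂ] Q).toRingHom := by
    have h1 : RingHom.ker π.toRingHom = RingHom.ker π := rfl
    rw [h1, hkerπ, Ideal.span_le]
    rintro _ ⟨a, rfl⟩
    exact hyrel a
  set g1 : A →ₐ[ℂ] Q := AlgHom.liftOfSurjective π hsurj (aeval y) hker with hg1
  have hg1' : ∀ p, g1 (π p) = aeval y p := fun p => AlgHom.liftOfSurjective_apply _ _ _ _ _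
  have hg1u : ∀ z : Submonoid.powers h, IsUnit (g1 z) := by
    rintro ⟨_, n, rfl⟩
    simp only [map_pow]
    apply IsUnit.pow
    rw [hh, map_prod, IsUnit.prod_iff]
    intro v' _
    rw [map_pow, hg1', aeval_X]
    by_cases hv' : v' = v
    · rw [hv', hev, pow_zero]
      exact isUnit_one
    · exact (hyu v' hv').pow _
  refine ⟨IsLocalization.liftAlgHom (M := Submonoid.powers h) (f := g1) hg1u, ?_⟩
  apply IsLocalization.algHom_ext (Submonoid.powers h)
  apply AlgHom.ext
  intro z
  obtain ⟨p, rfl⟩ := hsurj z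
  simp only [AlgHom.comp_apply]
  have h5 : (IsLocalization.liftAlgHom (M := Submonoid.powers h) (S := Localization.Away h)
      (f := g1) hg1u) (algebraMap A (Localization.Away h) (π p)) = g1 (π p) := by
    rw [IsLocalization.coe_liftAlgHom, IsLocalization.lift_eq]
    rfl
  change Ideal.Quotient.mk 𝔞 ((IsLocalization.liftAlgHom (M := Submonoid.powers h)
      (S := Localization.Away h) (f := g1) hg1u) (algebraMap A (Localization.Away h) (π p))) =
    f (algebraMap A (Localization.Away h) (π p))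
  rw [h5, hg1', hFa]
  have h6 : ((Ideal.Quotient.mkₐ ℂ 𝔞).comp (aeval y)) = aeval F := by
    apply MvPolynomial.algHom_ext
    intro k
    rw [AlgHom.comp_apply, aeval_X, aeval_X]
    exact hyF _
  exact AlgHom.congr_fun h6 p


end

variable {J K I B H : Type} [Fintype J] [Fintype K] [Fintype B]
    [DecidableEq J] [DecidableEq K] [DecidableEq I] [AddCommGroup H] [DecidableEq H]
    {D : CoxData J K I B H} {R : Type} [CommRing R] [Algebra ℂ R] {ℛ : H → Submodule ℂ R}
    [GradedAlgebra ℛ] {L : H} {A : Type} [CommRing A] [Algebra ℂ A] {𝒜 : ℕ → Submodule ℂ A}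
    [GradedAlgebra 𝒜]

/-- the image of the variable `v` -/
abbrev xv (pr : D.Pres R ℛ) (v : J ⊕ K) : R := pr.π (MvPolynomial.X v)

theorem mono_mem (pr : D.Pres R ℛ) (e : J ⊕ K → ℕ) :
    ∏ v, xv pr v ^ e v ∈ ℛ (∑ v, e v • D.deg v) :=
  SetLike.prod_mem_graded ℛ _ _ (fun v _ => SetLike.pow_mem_graded _ (pr.graded v))

theorem exists_units_mono (pr : D.Pres R ℛ) (v : J ⊕ K) (e : J ⊕ K → ℕ) {n : ℕ}
    (hpos : ∀ v', v' ≠ v → 0 < e v') (hsum : ∑ v', e v' • D.deg v' = n • L) {g : R}
    (hg : g = ∏ v', xv pr v' ^ e v') :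
    ∃ (δ : ({v' // v' ≠ v} →₀ ℤ) →+ H) (U : ({v' // v' ≠ v} →₀ ℤ) → Localization.Away g),
      Function.Surjective δ ∧ U 0 = 1 ∧ (∀ e e', U (e + e') = U e * U e') ∧
        ∀ e, HasDeg ℛ L n g (U e) (δ e) := by
  have hgu : IsUnit (algebraMap R (Localization.Away g) g) :=
    IsLocalization.Away.algebraMap_isUnit g
  -- the cofactor of `x_{v'}` in `g`
  have hcof : ∀ v', v' ≠ v → ∃ c ∈ ℛ (-D.deg v' + n • L), xv pr v' * c = g := by
    intro v' hv'
    set e' : J ⊕ K → ℕ := Function.update e v' (e v' - 1) with he'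
    have he1 : e' v' + 1 = e v' := by
      rw [he', Function.update_self]; have := hpos v' hv'; omega
    have he2 : ∀ w, w ≠ v' → e' w = e w := fun w hw => by rw [he', Function.update_of_ne hw]
    refine ⟨∏ w, xv pr w ^ e' w, ?_, ?_⟩
    · have h1 := mono_mem pr e'
      have h2 : ∑ w, e' w • D.deg w = -D.deg v' + n • L := by
        rw [← hsum, ← Finset.add_sum_erase _ _ (Finset.mem_univ v'),
          ← Finset.add_sum_erase (a := v') Finset.univ (fun w => e w • D.deg w)
            (Finset.mem_univ v'), ← he1, add_smul, one_smul]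
        have h3 : ∑ w ∈ Finset.univ.erase v', e' w • D.deg w =
            ∑ w ∈ Finset.univ.erase v', e w • D.deg w :=
          Finset.sum_congr rfl fun w hw => by rw [he2 w (Finset.ne_of_mem_erase hw)]
        rw [h3]
        abel
      rwa [h2] at h1
    · rw [hg, ← Finset.mul_prod_erase _ _ (Finset.mem_univ v'),
        ← Finset.mul_prod_erase (a := v') Finset.univ (fun w => xv pr w ^ e w)
          (Finset.mem_univ v'), ← he1, pow_succ]
      have h3 : ∏ w ∈ Finset.univ.erase v', xv pr w ^ e' w =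
          ∏ w ∈ Finset.univ.erase v', xv pr w ^ e w :=
        Finset.prod_congr rfl fun w hw => by rw [he2 w (Finset.ne_of_mem_erase hw)]
      rw [h3]
      ring
  have hu : ∀ v' : {v' // v' ≠ v}, IsUnit (algebraMap R (Localization.Away g) (xv pr v')) := by
    rintro ⟨v', hv'⟩
    obtain ⟨c, -, hc⟩ := hcof v' hv'
    have h1 := congrArg (algebraMap R (Localization.Away g)) hc
    rw [map_mul] at h1
    exact isUnit_of_mul_isUnit_left (h1 ▸ hgu)
  choose x hx using hu
  refine exists_units (V := {v' // v' ≠ v}) (fun v' => D.deg v') x ?_ ?_ ?_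
  · rw [← D.generated v]
    congr 1
    ext η
    constructor
    · rintro ⟨⟨v', hv'⟩, rfl⟩
      exact ⟨v', hv', rfl⟩
    · rintro ⟨v', hv', rfl⟩
      exact ⟨⟨v', hv'⟩, rfl⟩
  · intro v'
    refine ⟨0, xv pr v', ?_, ?_⟩
    · rw [zero_smul, add_zero]
      exact pr.graded v'
    · rw [pow_zero, map_one, mul_one]
      exact hx v'
  · rintro ⟨v', hv'⟩
    obtain ⟨c, hc, hcg⟩ := hcof v' hv'
    refine ⟨1, c, ?_, ?_⟩
    · rw [one_smul]; exact hc
    · have h1 := hx ⟨v', hv'⟩
      have h2 := congrArg (algebraMap R (Localization.Away g)) hcg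
      rw [map_mul] at h2
      simp only at h1
      rw [pow_one, ← h2, ← mul_assoc, ← h1, Units.inv_mul, one_mul]

theorem finiteType_away (pr : D.Pres R ℛ) (g : R) :
    Algebra.FiniteType ℂ (Localization.Away g) := by
  have h1 : Algebra.FiniteType ℂ R :=
    (inferInstance : Algebra.FiniteType ℂ (MvPolynomial (J ⊕ K) ℂ)).of_surjective pr.π pr.surj
  have h2 : Algebra.FiniteType R (Localization.Away g) :=
    IsLocalization.finiteType_of_monoid_fg (Submonoid.powers g) _
  exact Algebra.FiniteType.trans h1 h2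

theorem smooth_away (pr : D.Pres R ℛ) (sr : SectionRing ℛ L A 𝒜) (v : J ⊕ K)
    {n : ℕ} {h : A} (hh : h ∈ 𝒜 n) (e : J ⊕ K → ℕ) (hev : e v = 0)
    (hpos : ∀ v', v' ≠ v → 0 < e v') (hsum : ∑ v', e v' • D.deg v' = n • L)
    (hg : sr.ι h = ∏ v', xv pr v' ^ e v') :
    (strAway 𝒜 h).Smooth := by
  obtain ⟨δ, U, hδ, hU0, hUadd, hU⟩ := exists_units_mono pr v e hpos hsum hg
  obtain ⟨d, hd, hs⟩ := exists_primitive D v
  have hfs : Algebra.FormallySmooth ℂ (Localization.Away (sr.ι h)) := by
    refine fs_gen (toData D d hd hs) pr.π pr.surj pr.ker v (sr.ι h) ?_ e hev hg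
    intro v' hv'
    rw [hg]
    exact (dvd_pow_self _ (hpos v' hv').ne').trans
      (Finset.dvd_prod_of_mem (fun w => xv pr w ^ e w) (Finset.mem_univ v'))
  have hft := finiteType_zero sr hh pr.π pr.surj D.deg pr.graded δ hδ U hU0 hUadd hU
  let _ : Algebra ℂ (HomogeneousLocalization.Away 𝒜 h) := (strAway 𝒜 h).toAlgebra
  have hft' : Algebra.FiniteType ℂ (HomogeneousLocalization.Away 𝒜 h) := hft
  have h1 : Algebra.FinitePresentation ℂ (HomogeneousLocalization.Away 𝒜 h) :=
    Algebra.FinitePresentation.of_finiteType.1 hft'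
  have h2 : Algebra.FormallySmooth ℂ (HomogeneousLocalization.Away 𝒜 h) := by
    refine formallySmooth_descent (T := HomogeneousLocalization.Away 𝒜 h)
      (S := Localization.Away (sr.ι h))
      { toRingHom := kap sr h
        commutes' := fun c => kap_strAway sr h c } hfs ?_
    intro Q _ _ 𝔞 h𝔞 f
    exact exists_B sr hh δ hδ U hU0 hUadd hU Q 𝔞 h𝔞 f.toRingHom
  exact ⟨h2, h1⟩

end

end Pool.TVar.MG
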